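import Pool.Agent.Run7.h370.QC.Q7

/-!
# QW (helper630), stage two, piece V5b: the local fields in terms of the fields, the core
-/

set_option autoImplicit false

open MeasureTheory Matrix Filter Topology
open scoped Matrix.Norms.Frobenius ComplexConjugate

namespace Pool.Agent.Run7.h863.QW

open Run7.h4.YM Run7.h630.MQ Run7.h630.QC Run7.h370.MQ Run7.h370.QC

variable {N n L l : ℕ}

theorem cube_le' {β s S : ℝ} (hβ : 1 ≤ β) (hs : 0 ≤ s) (h : s ^ 2 = 2 * S) :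
    β * s ^ 3 ≤ 4 * (1 + (β * S) ^ 2) / Real.sqrt β := by
  have hb : 0 < Real.sqrt β := Real.sqrt_pos.2 (by linarith)
  have hb2 : Real.sqrt β ^ 2 = β := Real.sq_sqrt (by linarith)
  rw [le_div_iff₀ hb]
  set r : ℝ := Real.sqrt β * s with hr
  have hr0 : 0 ≤ r := mul_nonneg hb.le hs
  have e1 : β * s ^ 3 * Real.sqrt β = r ^ 3 := by
    rw [hr, mul_pow]
    calc β * s ^ 3 * Real.sqrt β = (Real.sqrt β ^ 2) * s ^ 3 * Real.sqrt β := by rw [hb2]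
      _ = _ := by ring
  have e2 : β * S = r ^ 2 / 2 := by
    rw [hr, mul_pow, hb2, h]
    ring
  rw [e1, e2]
  have h3 : r ^ 3 ≤ 1 + r ^ 4 := by
    rcases le_total r 1 with h1 | h1
    · have : r ^ 3 ≤ 1 := pow_le_one₀ hr0 h1
      have : 0 ≤ r ^ 4 := by positivity
      linarith
    · have : r ^ 3 ≤ r ^ 4 := pow_le_pow_right₀ h1 (by norm_num)
      linarith
  nlinarith [h3]

theorem pair_sum_le (g : Fin 4 → Fin 4 → ℝ) (c : ℝ) (hc : 0 ≤ c)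
    (h : ∀ i j, i < j → g i j ≤ c) : ∑ i : Fin 4, ∑ j ∈ Finset.Ioi i, g i j ≤ 16 * c := by
  calc ∑ i : Fin 4, ∑ j ∈ Finset.Ioi i, g i j
      ≤ ∑ i : Fin 4, ∑ j ∈ Finset.Ioi i, c :=
        Finset.sum_le_sum fun i _ => Finset.sum_le_sum fun j hj => h i j (Finset.mem_Ioi.1 hj)
    _ ≤ ∑ i : Fin 4, ∑ j : Fin 4, c := Finset.sum_le_sum fun i _ =>
        Finset.sum_le_sum_of_subset_of_nonneg (Finset.subset_univ _) fun _ _ _ => hc
    _ = 16 * c := by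
        simp only [Finset.sum_const, Finset.card_univ, Fintype.card_fin, nsmul_eq_mul]
        push_cast
        ring

theorem norm_pair_le {E : Type*} [SeminormedAddCommGroup E] (g : Fin 4 → Fin 4 → E) (c : ℝ)
    (hc : 0 ≤ c) (h : ∀ i j, i < j → ‖g i j‖ ≤ c) :
    ‖∑ i : Fin 4, ∑ j ∈ Finset.Ioi i, g i j‖ ≤ 16 * c :=
  (norm_sum_le _ _).trans ((Finset.sum_le_sum fun i _ => norm_sum_le _ _).trans
    (pair_sum_le (fun i j => ‖g i j‖) c hc h))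

/-- the curvature in the direction `u` -/
noncomputable def MM (k : ℕ) (q : ZMod n × ZMod L → ZMod N) (U : Link n L l → SU N)
    (u : Fin 4 → Fin 4 → ℝ) (x : Site n L l) : Mt N :=
  ∑ i : Fin 4, ∑ j ∈ Finset.Ioi i, (u i j : ℂ) • Fc k q U x i j

theorem core_V5b (hQ3 : S_Q3) (hQ3b : S_Q3b) (N : ℕ) [NeZero N] : ∃ C : ℝ, ∃ p : ℕ, 0 < C ∧
    ∀ (n L l k : ℕ) [NeZero n] [NeZero L] [NeZero l], Nat.Coprime k N →
    ∀ (q : ZMod n × ZMod L → ZMod N) (U : Link n L l → SU N) (u : Fin 4 → Fin 4 → ℝ) (B : ℝ),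
    (∀ i j, |u i j| ≤ B) → ∀ (x : Site n L l) (β : ℝ), 1 ≤ β →
    |β / 2 * (trace ((MM k q U u x)ᴴ * MM k q U u x)).re -
        β / (2 * N) * ∑ α ∈ (Finset.univ : Finset (Col N)).erase (0, 0),
          ‖∑ i : Fin 4, ∑ j ∈ Finset.Ioi i, (u i j : ℂ) * ph2 k q α U i j x‖ ^ 2| ≤
      C * vol n L l ^ p * (1 + B) ^ 4 / Real.sqrt β * (1 + (β * Sq k q U) ^ 2) := by
  obtain ⟨C3, p3, hC3, h3⟩ := hQ3 N
  obtain ⟨C3b, hC3b, h3b⟩ := hQ3b N
  have hN : (0 : ℝ) < N := by exact_mod_cast Nat.pos_of_neZero N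
  have hN1 : (1 : ℝ) ≤ N := by exact_mod_cast Nat.pos_of_neZero N
  refine ⟨4 * (256 * (C3 + N * C3b)), p3, by positivity, ?_⟩
  intro n L l k _ _ _ hk q U u B hu x β hβ
  have hVV := vol_ge (n := n) (L := L) (l := l)
  have hl0 : (0 : ℝ) ≤ l := Nat.cast_nonneg _
  have hb : 0 < Real.sqrt β := Real.sqrt_pos.2 (by linarith)
  have hB : 0 ≤ B := (abs_nonneg _).trans (hu 0 0)
  set s := ss k q U with hs
  have hs0 : 0 ≤ s := ss_nonneg k q U
  have hs2 : s ^ 2 = 2 * Sq k q U := ss_sq' k q U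
  set M := MM k q U u x with hM
  have hMdef : M = ∑ i : Fin 4, ∑ j ∈ Finset.Ioi i, (u i j : ℂ) • Fc k q U x i j := rfl
  have hun : ∀ i j, ‖(u i j : ℂ)‖ ≤ B := fun i j => by
    rw [Complex.norm_real, Real.norm_eq_abs]
    exact hu i j
  have hMn : ‖M‖ ≤ 16 * (B * s) := by
    rw [hMdef]
    refine norm_pair_le _ _ (mul_nonneg hB hs0) fun i j _ => ?_
    rw [norm_smul]
    exact mul_le_mul (hun i j) (Fc_le k q U x i j) (norm_nonneg _) hB
  have hMt : ‖trace M‖ ≤ 16 * (B * (C3b * s ^ 2)) := by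
    have e : trace M = ∑ i : Fin 4, ∑ j ∈ Finset.Ioi i, (u i j : ℂ) * trace (Fc k q U x i j) := by
      rw [hMdef, Matrix.trace_sum]
      refine Finset.sum_congr rfl fun i _ => ?_
      rw [Matrix.trace_sum]
      exact Finset.sum_congr rfl fun j _ => by rw [trace_smul, smul_eq_mul]
    rw [e]
    refine norm_pair_le _ _ (by positivity) fun i j _ => ?_
    rw [norm_mul]
    refine mul_le_mul (hun i j) ?_ (norm_nonneg _) hB
    have h1 : ‖trace (Fc k q U x i j)‖ ≤ C3b * ‖Fc k q U x i j‖ ^ 2 := h3b _ (zz_pow k q x i j) _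
    exact h1.trans (mul_le_mul_of_nonneg_left
      (pow_le_pow_left₀ (norm_nonneg _) (Fc_le k q U x i j) 2) hC3b.le)
  have hMt2 : ‖trace M‖ ≤ N * (16 * (B * s)) := (norm_tr_le _).trans
    (mul_le_mul_of_nonneg_left hMn hN.le)
  have e1 : ∀ α : Col N, trace ((Dr α U x).1 * M) =
      ∑ i : Fin 4, ∑ j ∈ Finset.Ioi i, (u i j : ℂ) * ph2 k q α U i j x := by
    intro α
    rw [hMdef, Matrix.mul_sum, Matrix.trace_sum]
    refine Finset.sum_congr rfl fun i _ => ?_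
    rw [Matrix.mul_sum, Matrix.trace_sum]
    refine Finset.sum_congr rfl fun j _ => ?_
    rw [Matrix.mul_smul, trace_smul, smul_eq_mul]
    rfl
  set A : ℝ := ∑ α ∈ (Finset.univ : Finset (Col N)).erase (0, 0),
    ‖∑ i : Fin 4, ∑ j ∈ Finset.Ioi i, (u i j : ℂ) * ph2 k q α U i j x‖ ^ 2 with hA
  have e2 : ∑ α : Col N, ‖trace ((Dr α U x).1 * M)‖ ^ 2 = A + ‖trace M‖ ^ 2 := by
    have h0 : (0, 0) ∈ (Finset.univ : Finset (Col N)) := Finset.mem_univ _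
    rw [← Finset.sum_erase_add _ _ h0, Dr_zero, one_mul]
    congr 1
    exact Finset.sum_congr rfl fun α _ => by rw [e1]
  have a1 := h3 n L l k hk q U x M
  rw [e2] at a1
  have a4 : ‖trace M‖ ^ 2 ≤ (16 * (B * (C3b * s ^ 2))) * (N * (16 * (B * s))) := by
    rw [_root_.sq]
    exact mul_le_mul hMt hMt2 (norm_nonneg _) (by positivity)
  have a5 : 0 ≤ ‖trace M‖ ^ 2 := sq_nonneg _
  have a6 : ‖M‖ ^ 2 ≤ (16 * (B * s)) ^ 2 := pow_le_pow_left₀ (norm_nonneg _) hMn 2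
  have hl3 : 0 ≤ C3 * (l : ℝ) ^ p3 * s := by positivity
  have a7 : C3 * (l : ℝ) ^ p3 * s * ‖M‖ ^ 2 ≤ C3 * (l : ℝ) ^ p3 * s * (16 * (B * s)) ^ 2 :=
    mul_le_mul_of_nonneg_left a6 hl3
  have h4 : |A - N * ‖M‖ ^ 2| ≤ 256 * B ^ 2 * (C3 * (l : ℝ) ^ p3 + N * C3b) * s ^ 3 := by
    rw [abs_le] at a1 ⊢
    constructor <;> nlinarith [a1.1, a1.2, a4, a5, a7]
  have hc := cube_le' hβ hs0 hs2
  have hlp : (l : ℝ) ^ p3 ≤ vol n L l ^ p3 := pow_le_pow_left₀ hl0 hVV.2 _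
  have hV1 : 1 ≤ vol n L l ^ p3 := one_le_pow₀ hVV.1
  have hK : C3 * (l : ℝ) ^ p3 + N * C3b ≤ (C3 + N * C3b) * vol n L l ^ p3 := by
    have h1 := mul_le_mul_of_nonneg_left hlp hC3.le
    have h2 : 0 ≤ N * C3b := by positivity
    nlinarith
  have hB2 : B ^ 2 ≤ (1 + B) ^ 4 := by
    have h1 : B ≤ (1 + B) ^ 2 := by nlinarith
    calc B ^ 2 ≤ ((1 + B) ^ 2) ^ 2 := pow_le_pow_left₀ hB h1 2
      _ = _ := by ring
  have hK0 : 0 ≤ C3 * (l : ℝ) ^ p3 + N * C3b := by positivity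
  have hK2 : 256 * B ^ 2 * (C3 * (l : ℝ) ^ p3 + N * C3b) ≤
      256 * (1 + B) ^ 4 * ((C3 + N * C3b) * vol n L l ^ p3) :=
    mul_le_mul (mul_le_mul_of_nonneg_left hB2 (by norm_num)) hK hK0 (by positivity)
  have e3 : β / 2 * (trace (Mᴴ * M)).re - β / (2 * N) * A =
      -(β / (2 * N)) * (A - N * ‖M‖ ^ 2) := by
    rw [norm_sq_tr, Matrix.trace_mul_comm]
    field_simp
    ring
  rw [e3, abs_mul, abs_neg, abs_of_nonneg (by positivity : 0 ≤ β / (2 * N))]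
  have hy : 0 ≤ 1 + (β * Sq k q U) ^ 2 := by positivity
  calc β / (2 * N) * |A - N * ‖M‖ ^ 2| ≤
        β / (2 * N) * (256 * B ^ 2 * (C3 * (l : ℝ) ^ p3 + N * C3b) * s ^ 3) :=
        mul_le_mul_of_nonneg_left h4 (by positivity)
    _ ≤ β * (256 * B ^ 2 * (C3 * (l : ℝ) ^ p3 + N * C3b) * s ^ 3) :=
        mul_le_mul_of_nonneg_right (div_le_self (by linarith) (by linarith)) (by positivity)
    _ = 256 * B ^ 2 * (C3 * (l : ℝ) ^ p3 + N * C3b) * (β * s ^ 3) := by ring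
    _ ≤ 256 * B ^ 2 * (C3 * (l : ℝ) ^ p3 + N * C3b) *
          (4 * (1 + (β * Sq k q U) ^ 2) / Real.sqrt β) :=
        mul_le_mul_of_nonneg_left hc (by positivity)
    _ ≤ 256 * (1 + B) ^ 4 * ((C3 + N * C3b) * vol n L l ^ p3) *
          (4 * (1 + (β * Sq k q U) ^ 2) / Real.sqrt β) :=
        mul_le_mul_of_nonneg_right hK2 (by positivity)
    _ = _ := by ring

end Pool.Agent.Run7.h863.QW
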