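import Pool.Agent.Run7.h630.QW.Gen
import Pool.Agent.Run7.h863.QW.V5bcore

/-!
# QW (helper630), stage two, piece V5b
-/

set_option autoImplicit false

open Matrix
open scoped Matrix.Norms.Frobenius ComplexConjugate

namespace Pool.Agent.Run7.h863.QW

open Run7.h4.YM Run7.h630.MQ Run7.h630.QC Run7.h630.QW

theorem t_V5b : S_Q3 → S_Q3b → S_V5b := fun h3 h3b N _ => core_V5b h3 h3b N

end Pool.Agent.Run7.h863.QW
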