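import Mathlib

/-!
# QW (helper630), stage two, piece V6: the covariance from three comparisons
-/

set_option autoImplicit false

namespace Pool.Agent.Run7.h863.QW

theorem cov {a b c A B C Z K e D F : ℝ} (hZ : 0 < Z) (hK : 0 ≤ K) (he : 0 ≤ e)
    (h1 : |a - A / Z| ≤ K ^ 2 * e) (h2 : |b - B / Z| ≤ K * e) (h3 : |c - C / Z| ≤ K * e)
    (hB : |B| ≤ K * Z) (hc : |c| ≤ K) (h : |A * Z - B * C - D * Z ^ 2| ≤ F * Z ^ 2) :
    |a - b * c - D| ≤ 3 * K ^ 2 * e + F := by
  have hBZ : |B / Z| ≤ K := by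
    rw [abs_div, abs_of_pos hZ, div_le_iff₀ hZ]
    exact hB
  have e1 : a - b * c - D = (a - A / Z) - (b - B / Z) * c - B / Z * (c - C / Z) +
      (A / Z - B / Z * (C / Z) - D) := by ring
  have e2 : A / Z - B / Z * (C / Z) - D = (A * Z - B * C - D * Z ^ 2) / Z ^ 2 := by
    field_simp
  have h4 : |A / Z - B / Z * (C / Z) - D| ≤ F := by
    rw [e2, abs_div, abs_of_pos (by positivity : 0 < Z ^ 2), div_le_iff₀ (by positivity)]
    exact h
  have h5 : |(b - B / Z) * c| ≤ K ^ 2 * e := by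
    rw [abs_mul]
    calc |b - B / Z| * |c| ≤ (K * e) * K := mul_le_mul h2 hc (abs_nonneg _) (by positivity)
      _ = _ := by ring
  have h6 : |B / Z * (c - C / Z)| ≤ K ^ 2 * e := by
    rw [abs_mul]
    calc |B / Z| * |c - C / Z| ≤ K * (K * e) := mul_le_mul hBZ h3 (abs_nonneg _) hK
      _ = _ := by ring
  rw [e1]
  have t1 := abs_add_le ((a - A / Z) - (b - B / Z) * c - B / Z * (c - C / Z))
    (A / Z - B / Z * (C / Z) - D)
  have t2 := abs_sub ((a - A / Z) - (b - B / Z) * c) (B / Z * (c - C / Z))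
  have t3 := abs_sub (a - A / Z) ((b - B / Z) * c)
  linarith

end Pool.Agent.Run7.h863.QW
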