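import Mathlib

/-!
# QW (helper630), stage two, piece V6: the numbers
-/

set_option autoImplicit false

open Filter Topology

namespace Pool.Agent.Run7.h863.QW

noncomputable section

/-- the exponent of the scale -/
def rr (l : ℕ) (β : ℝ) : ℕ := Nat.clog 2 ⌈(l : ℝ) ^ 4 + (l : ℝ) ^ 2 * Real.log β⌉₊

theorem rr_ge (l : ℕ) (β : ℝ) : (l : ℝ) ^ 4 + (l : ℝ) ^ 2 * Real.log β ≤ (2 : ℝ) ^ rr l β := by
  have h1 : ⌈(l : ℝ) ^ 4 + (l : ℝ) ^ 2 * Real.log β⌉₊ ≤ 2 ^ rr l β :=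
    Nat.le_pow_clog (by norm_num) _
  have h2 : ((⌈(l : ℝ) ^ 4 + (l : ℝ) ^ 2 * Real.log β⌉₊ : ℕ) : ℝ) ≤ ((2 ^ rr l β : ℕ) : ℝ) := by
    exact_mod_cast h1
  refine (Nat.le_ceil _).trans (h2.trans (le_of_eq ?_))
  push_cast
  rfl

theorem rr_ge4 {l : ℕ} {β : ℝ} (hβ : 1 ≤ β) : l ^ 4 ≤ 2 ^ rr l β := by
  have h1 := rr_ge l β
  have h2 : 0 ≤ (l : ℝ) ^ 2 * Real.log β := mul_nonneg (by positivity) (Real.log_nonneg hβ)
  have h3 : ((l ^ 4 : ℕ) : ℝ) ≤ ((2 ^ rr l β : ℕ) : ℝ) := by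
    push_cast
    linarith
  exact_mod_cast h3

theorem rr_le {l : ℕ} (hl : 1 ≤ l) {β : ℝ} (hβ : 1 ≤ β) :
    (2 : ℝ) ^ rr l β ≤ 4 * ((l : ℝ) ^ 4 + (l : ℝ) ^ 2 * Real.log β) := by
  have hl1 : (1 : ℝ) ≤ l := by exact_mod_cast hl
  have h2 : 0 ≤ (l : ℝ) ^ 2 * Real.log β := mul_nonneg (by positivity) (Real.log_nonneg hβ)
  have h4 : (1 : ℝ) ≤ (l : ℝ) ^ 4 := one_le_pow₀ hl1
  set x : ℝ := (l : ℝ) ^ 4 + (l : ℝ) ^ 2 * Real.log β with hx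
  have hx1 : 1 ≤ x := by linarith
  have hK : 1 ≤ ⌈x⌉₊ := Nat.one_le_ceil_iff.2 (by linarith)
  have hKx : ((⌈x⌉₊ : ℕ) : ℝ) ≤ x + 1 := (Nat.ceil_lt_add_one (by linarith)).le
  have h5 : 2 ^ rr l β ≤ 2 * ⌈x⌉₊ := by
    unfold rr
    rw [← hx]
    rcases Nat.lt_or_ge 1 ⌈x⌉₊ with h | h
    · have h6 := Nat.pow_pred_clog_lt_self (b := 2) (by norm_num) h
      have h7 : 0 < Nat.clog 2 ⌈x⌉₊ := Nat.clog_pos (by norm_num) h
      obtain ⟨c, hc⟩ : ∃ c, Nat.clog 2 ⌈x⌉₊ = c + 1 := ⟨_, (Nat.succ_pred_eq_of_pos h7).symm⟩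
      rw [hc] at h6 ⊢
      rw [Nat.pred_succ] at h6
      rw [pow_succ]
      omega
    · have h8 : ⌈x⌉₊ = 1 := le_antisymm h hK
      rw [h8]
      simp
  have h9 : (2 : ℝ) ^ rr l β ≤ 2 * ((⌈x⌉₊ : ℕ) : ℝ) := by exact_mod_cast h5
  linarith

theorem half_pow_le {n : ℕ} {x : ℝ} (h : x ≤ n) : (1 / 2 : ℝ) ^ n ≤ Real.exp (-(x / 2)) := by
  have h1 : (1 / 2 : ℝ) ≤ Real.exp (-(1 / 2)) := by
    have := Real.add_one_le_exp (-(1 / 2) : ℝ)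
    linarith
  calc (1 / 2 : ℝ) ^ n ≤ Real.exp (-(1 / 2)) ^ n := pow_le_pow_left₀ (by norm_num) h1 _
    _ = Real.exp (n * -(1 / 2)) := by rw [← Real.exp_nat_mul]
    _ ≤ Real.exp (-(x / 2)) := Real.exp_le_exp.2 (by linarith)

/-- (A) the error of the transfer -/
theorem numA (N T : ℕ) (c : ℝ) : ∃ l₁ : ℕ, ∀ l : ℕ, l₁ ≤ l → ∀ β : ℝ, 1 ≤ β → ∀ s : ℝ, 0 < s →
    s ≤ 1 / 2 → 3 * (c * β) ^ 2 * (48 * (N : ℝ) ^ ((2 * (T * l + 1) + 1) ^ 2) *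
      s ^ (2 ^ rr l β)) ≤ 1 / 2 * ((l : ℝ) ^ 9)⁻¹ := by
  have ht : Tendsto (fun l : ℕ => 144 * c ^ 2 * ((l : ℝ) ^ 9 * Real.exp (-(l : ℝ)))) atTop
      (𝓝 (144 * c ^ 2 * 0)) :=
    ((Real.tendsto_pow_mul_exp_neg_atTop_nhds_zero 9).comp
      tendsto_natCast_atTop_atTop).const_mul _
  rw [mul_zero] at ht
  obtain ⟨l₂, h₂⟩ := eventually_atTop.1 (ht.eventually (ge_mem_nhds (by norm_num : (0 : ℝ) < 1 / 2)))
  refine ⟨max l₂ (4 * (N * (2 * T + 3) ^ 2) + 2), fun l hl β hβ s hs0 hs => ?_⟩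
  have hl2 : l₂ ≤ l := (le_max_left _ _).trans hl
  have hl3 : 4 * (N * (2 * T + 3) ^ 2) + 2 ≤ l := (le_max_right _ _).trans hl
  have hl4 : 2 ≤ l := by omega
  have hlr : (2 : ℝ) ≤ l := by exact_mod_cast hl4
  have hlN : 4 * ((N : ℝ) * (2 * T + 3) ^ 2) ≤ l := by
    have : 4 * (N * (2 * T + 3) ^ 2) ≤ l := by omega
    exact_mod_cast this
  have hβ0 : 0 < β := by linarith
  have hlog : 0 ≤ Real.log β := Real.log_nonneg hβ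
  -- the factors
  have f1 : (N : ℝ) ^ ((2 * (T * l + 1) + 1) ^ 2) ≤
      Real.exp (N * ((2 * T + 3) ^ 2 * (l : ℝ) ^ 2)) := by
    have g1 : (N : ℝ) ≤ Real.exp N := by
      have := Real.add_one_le_exp (N : ℝ)
      linarith
    have g2 : (((2 * (T * l + 1) + 1) ^ 2 : ℕ) : ℝ) ≤ (2 * T + 3) ^ 2 * (l : ℝ) ^ 2 := by
      push_cast
      rw [← mul_pow]
      refine pow_le_pow_left₀ (by positivity) ?_ 2
      nlinarith
    calc (N : ℝ) ^ ((2 * (T * l + 1) + 1) ^ 2) ≤ Real.exp N ^ ((2 * (T * l + 1) + 1) ^ 2) :=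
          pow_le_pow_left₀ (Nat.cast_nonneg _) g1 _
      _ = Real.exp ((((2 * (T * l + 1) + 1) ^ 2 : ℕ) : ℝ) * N) := by rw [← Real.exp_nat_mul]
      _ ≤ Real.exp (N * ((2 * T + 3) ^ 2 * (l : ℝ) ^ 2)) := by
          refine Real.exp_le_exp.2 ?_
          rw [mul_comm]
          exact mul_le_mul_of_nonneg_left g2 (Nat.cast_nonneg _)
  have f2 : s ^ (2 ^ rr l β) ≤ Real.exp (-(((l : ℝ) ^ 4 + (l : ℝ) ^ 2 * Real.log β) / 2)) := by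
    refine (pow_le_pow_left₀ hs0.le hs _).trans (half_pow_le ?_)
    push_cast
    exact rr_ge l β
  have f3 : β ^ 2 = Real.exp (2 * Real.log β) := by
    rw [two_mul, Real.exp_add, Real.exp_log hβ0, _root_.sq]
  have f4 : Real.exp (2 * Real.log β) * (Real.exp (N * ((2 * T + 3) ^ 2 * (l : ℝ) ^ 2)) *
      Real.exp (-(((l : ℝ) ^ 4 + (l : ℝ) ^ 2 * Real.log β) / 2))) ≤ Real.exp (-(l : ℝ)) := by
    rw [← Real.exp_add, ← Real.exp_add]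
    refine Real.exp_le_exp.2 ?_
    have g0 : 4 ≤ (l : ℝ) ^ 2 := by nlinarith
    have g1 : 2 * Real.log β ≤ (l : ℝ) ^ 2 * Real.log β / 2 := by
      have := mul_le_mul_of_nonneg_right g0 hlog
      linarith
    have g2 : (N : ℝ) * ((2 * T + 3) ^ 2 * (l : ℝ) ^ 2) ≤ (l : ℝ) ^ 3 / 4 := by
      have : (N : ℝ) * (2 * T + 3) ^ 2 ≤ l / 4 := by linarith
      calc (N : ℝ) * ((2 * T + 3) ^ 2 * (l : ℝ) ^ 2) = (N : ℝ) * (2 * T + 3) ^ 2 * (l : ℝ) ^ 2 := by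
            ring
        _ ≤ l / 4 * (l : ℝ) ^ 2 := mul_le_mul_of_nonneg_right this (by positivity)
        _ = _ := by ring
    have g3 : (l : ℝ) ^ 3 / 4 + l ≤ (l : ℝ) ^ 4 / 2 := by
      have h3 : 2 * (l : ℝ) ^ 3 ≤ (l : ℝ) ^ 4 := by
        calc 2 * (l : ℝ) ^ 3 ≤ l * (l : ℝ) ^ 3 := mul_le_mul_of_nonneg_right hlr (by positivity)
          _ = _ := by ring
      have h4 : 4 * (l : ℝ) ≤ (l : ℝ) ^ 3 := by
        calc 4 * (l : ℝ) ≤ (l : ℝ) ^ 2 * l := mul_le_mul_of_nonneg_right (by nlinarith)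
              (by linarith)
          _ = _ := by ring
      linarith
    linarith
  have f5 : 0 ≤ s ^ (2 ^ rr l β) := pow_nonneg hs0.le _
  have h6 := h₂ l hl2
  have hl9 : (0 : ℝ) < (l : ℝ) ^ 9 := by positivity
  calc 3 * (c * β) ^ 2 * (48 * (N : ℝ) ^ ((2 * (T * l + 1) + 1) ^ 2) * s ^ (2 ^ rr l β))
      = 144 * c ^ 2 * (β ^ 2 * ((N : ℝ) ^ ((2 * (T * l + 1) + 1) ^ 2) * s ^ (2 ^ rr l β))) := by
        ring
    _ ≤ 144 * c ^ 2 * (Real.exp (2 * Real.log β) *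
          (Real.exp (N * ((2 * T + 3) ^ 2 * (l : ℝ) ^ 2)) *
            Real.exp (-(((l : ℝ) ^ 4 + (l : ℝ) ^ 2 * Real.log β) / 2)))) := by
        rw [f3]
        refine mul_le_mul_of_nonneg_left (mul_le_mul_of_nonneg_left ?_ (Real.exp_pos _).le)
          (by positivity)
        exact mul_le_mul f1 f2 f5 (Real.exp_pos _).le
    _ ≤ 144 * c ^ 2 * Real.exp (-(l : ℝ)) := mul_le_mul_of_nonneg_left f4 (by positivity)
    _ = 144 * c ^ 2 * ((l : ℝ) ^ 9 * Real.exp (-(l : ℝ))) * ((l : ℝ) ^ 9)⁻¹ := by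
        field_simp
    _ ≤ 1 / 2 * ((l : ℝ) ^ 9)⁻¹ := mul_le_mul_of_nonneg_right h6 (inv_nonneg.2 hl9.le)

/-- powers of the logarithm -/
theorem log_pow_le (p : ℕ) {β : ℝ} (hβ : 1 ≤ β) :
    (1 + Real.log β) ^ (2 * p) ≤ (1 + 16 * (p + 1)) ^ (2 * p) * β ^ (1 / 8 : ℝ) := by
  have hβ0 : 0 < β := by linarith
  have hd : (0 : ℝ) < 1 / (16 * (p + 1)) := by positivity
  have h1 : 1 + Real.log β ≤ (1 + 16 * (p + 1)) * β ^ (1 / (16 * (p + 1)) : ℝ) := by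
    have h2 := Real.log_le_rpow_div hβ0.le hd
    have h3 : 1 ≤ β ^ (1 / (16 * (p + 1)) : ℝ) := Real.one_le_rpow hβ hd.le
    have h4 : β ^ (1 / (16 * (p + 1)) : ℝ) / (1 / (16 * (p + 1))) =
        16 * (p + 1) * β ^ (1 / (16 * (p + 1)) : ℝ) := by
      field_simp
    rw [h4] at h2
    linarith
  have hlog : 0 ≤ 1 + Real.log β := by
    have := Real.log_nonneg hβ
    linarith
  refine (pow_le_pow_left₀ hlog h1 _).trans ?_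
  rw [mul_pow]
  refine mul_le_mul_of_nonneg_left ?_ (by positivity)
  rw [← Real.rpow_natCast, ← Real.rpow_mul hβ0.le]
  refine Real.rpow_le_rpow_of_exponent_le hβ ?_
  push_cast
  rw [div_mul_eq_mul_div, one_mul, div_le_div_iff₀ (by positivity) (by norm_num)]
  nlinarith

/-- (B) the rate -/
theorem numB (p : ℕ) : ∃ p₁ : ℕ, ∀ C : ℝ, ∃ l₁ : ℕ, ∀ l : ℕ, l₁ ≤ l → ∀ β : ℝ, 1 ≤ β →
    (l : ℝ) ^ p₁ ≤ β → ∀ a0 m : ℕ, a0 ≤ l ^ 3 → m = 2 * (2 ^ (rr l β + 1) * a0) →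
    C * (((2 * m : ℕ) : ℝ) * ((2 * m : ℕ) : ℝ) * (l : ℝ) ^ 2) ^ p * β ^ (-(1 / 4) : ℝ) ≤
      1 / 2 * ((l : ℝ) ^ 9)⁻¹ := by
  refine ⟨8 * (16 * p + 10), fun C => ?_⟩
  set K : ℝ := |C| * (1024 ^ p * (1 + 16 * (p + 1)) ^ (2 * p)) with hK
  have hK0 : 0 ≤ K := by positivity
  refine ⟨⌈2 * K⌉₊ + 1, fun l hl β hβ hlβ a0 m ha hm => ?_⟩
  have hl1 : 1 ≤ l := by omega
  have hl1r : (1 : ℝ) ≤ l := by exact_mod_cast hl1
  have hl0 : (0 : ℝ) < l := by linarith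
  have hlK : 2 * K ≤ l := by
    have h1 : ⌈2 * K⌉₊ ≤ l := by omega
    exact (Nat.le_ceil _).trans (by exact_mod_cast h1)
  have hβ0 : 0 < β := by linarith
  have hlog : 0 ≤ Real.log β := Real.log_nonneg hβ
  -- the size
  have g1 : (m : ℝ) ≤ 16 * ((l : ℝ) ^ 7 * (1 + Real.log β)) := by
    have h1 : (m : ℝ) = 4 * ((2 : ℝ) ^ rr l β * a0) := by
      rw [hm]
      push_cast
      rw [pow_succ]
      ring
    have h2 : ((a0 : ℕ) : ℝ) ≤ (l : ℝ) ^ 3 := by exact_mod_cast ha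
    have h3 : (2 : ℝ) ^ rr l β ≤ 4 * ((l : ℝ) ^ 4 * (1 + Real.log β)) := by
      refine (rr_le hl1 hβ).trans ?_
      have h4 : (l : ℝ) ^ 2 ≤ (l : ℝ) ^ 4 := pow_le_pow_right₀ hl1r (by norm_num)
      have h5 := mul_le_mul_of_nonneg_right h4 hlog
      nlinarith
    rw [h1]
    calc 4 * ((2 : ℝ) ^ rr l β * a0) ≤ 4 * (4 * ((l : ℝ) ^ 4 * (1 + Real.log β)) * (l : ℝ) ^ 3) := by
          refine mul_le_mul_of_nonneg_left ?_ (by norm_num)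
          exact mul_le_mul h3 h2 (Nat.cast_nonneg _) (by positivity)
      _ = _ := by ring
  have g2 : ((2 * m : ℕ) : ℝ) * ((2 * m : ℕ) : ℝ) * (l : ℝ) ^ 2 ≤
      1024 * ((l : ℝ) ^ 16 * (1 + Real.log β) ^ 2) := by
    have h1 : ((2 * m : ℕ) : ℝ) ≤ 32 * ((l : ℝ) ^ 7 * (1 + Real.log β)) := by
      push_cast
      linarith
    calc ((2 * m : ℕ) : ℝ) * ((2 * m : ℕ) : ℝ) * (l : ℝ) ^ 2 ≤
          (32 * ((l : ℝ) ^ 7 * (1 + Real.log β))) * (32 * ((l : ℝ) ^ 7 * (1 + Real.log β))) *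
            (l : ℝ) ^ 2 :=
          mul_le_mul_of_nonneg_right (mul_le_mul h1 h1 (Nat.cast_nonneg _) (by positivity))
            (by positivity)
      _ = _ := by ring
  have g3 : (((2 * m : ℕ) : ℝ) * ((2 * m : ℕ) : ℝ) * (l : ℝ) ^ 2) ^ p ≤
      1024 ^ p * (1 + 16 * (p + 1)) ^ (2 * p) * ((l : ℝ) ^ (16 * p) * β ^ (1 / 8 : ℝ)) := by
    calc (((2 * m : ℕ) : ℝ) * ((2 * m : ℕ) : ℝ) * (l : ℝ) ^ 2) ^ p ≤
          (1024 * ((l : ℝ) ^ 16 * (1 + Real.log β) ^ 2)) ^ p :=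
          pow_le_pow_left₀ (by positivity) g2 _
      _ = 1024 ^ p * ((l : ℝ) ^ (16 * p) * (1 + Real.log β) ^ (2 * p)) := by
          rw [mul_pow, mul_pow, ← pow_mul, ← pow_mul]
      _ ≤ 1024 ^ p * ((l : ℝ) ^ (16 * p) * ((1 + 16 * (p + 1)) ^ (2 * p) * β ^ (1 / 8 : ℝ))) := by
          refine mul_le_mul_of_nonneg_left (mul_le_mul_of_nonneg_left (log_pow_le p hβ)
            (by positivity)) (by positivity)
      _ = _ := by ring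
  have g4 : β ^ (1 / 8 : ℝ) * β ^ (-(1 / 4) : ℝ) ≤ ((l : ℝ) ^ (16 * p + 10))⁻¹ := by
    rw [← Real.rpow_add hβ0]
    have h3 : β ^ (1 / 8 + -(1 / 4) : ℝ) ≤
        ((l : ℝ) ^ (8 * (16 * p + 10))) ^ (1 / 8 + -(1 / 4) : ℝ) :=
      Real.rpow_le_rpow_of_nonpos (by positivity) hlβ (by norm_num)
    refine h3.trans (le_of_eq ?_)
    rw [← Real.rpow_natCast (l : ℝ) (8 * (16 * p + 10)), ← Real.rpow_mul hl0.le,
      ← Real.rpow_natCast (l : ℝ) (16 * p + 10), ← Real.rpow_neg hl0.le]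
    congr 1
    push_cast
    ring
  have hb4 : 0 ≤ β ^ (-(1 / 4) : ℝ) := Real.rpow_nonneg hβ0.le _
  calc C * (((2 * m : ℕ) : ℝ) * ((2 * m : ℕ) : ℝ) * (l : ℝ) ^ 2) ^ p * β ^ (-(1 / 4) : ℝ)
      ≤ |C| * (((2 * m : ℕ) : ℝ) * ((2 * m : ℕ) : ℝ) * (l : ℝ) ^ 2) ^ p * β ^ (-(1 / 4) : ℝ) :=
        mul_le_mul_of_nonneg_right (mul_le_mul_of_nonneg_right (le_abs_self C) (by positivity)) hb4
    _ ≤ |C| * (1024 ^ p * (1 + 16 * (p + 1)) ^ (2 * p) * ((l : ℝ) ^ (16 * p) *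
          β ^ (1 / 8 : ℝ))) * β ^ (-(1 / 4) : ℝ) :=
        mul_le_mul_of_nonneg_right (mul_le_mul_of_nonneg_left g3 (abs_nonneg _)) hb4
    _ = K * (l : ℝ) ^ (16 * p) * (β ^ (1 / 8 : ℝ) * β ^ (-(1 / 4) : ℝ)) := by
        rw [hK]
        ring
    _ ≤ K * (l : ℝ) ^ (16 * p) * ((l : ℝ) ^ (16 * p + 10))⁻¹ :=
        mul_le_mul_of_nonneg_left g4 (by positivity)
    _ = K * (l : ℝ)⁻¹ * ((l : ℝ) ^ 9)⁻¹ := by
        rw [pow_add]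
        field_simp
    _ ≤ 1 / 2 * ((l : ℝ) ^ 9)⁻¹ := by
        refine mul_le_mul_of_nonneg_right ?_ (by positivity)
        rw [← div_eq_mul_inv, div_le_div_iff₀ hl0 (by norm_num)]
        linarith

/-- (C) the window -/
theorem numC {T l : ℕ} {β : ℝ} (hl : 2 * T + 8 ≤ l) (hβ : 1 ≤ β) :
    2 * (T * l + 1) + 5 ≤ 2 ^ rr l β := by
  refine le_trans ?_ (rr_ge4 hβ)
  calc 2 * (T * l + 1) + 5 ≤ (2 * T + 7) * l := by nlinarith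
    _ ≤ l * l := Nat.mul_le_mul_right _ (by omega)
    _ ≤ l * l * (l * l) := Nat.le_mul_of_pos_right _ (Nat.mul_pos (by omega) (by omega))
    _ = l ^ 4 := by ring

theorem numD {l a0 m : ℕ} {β : ℝ} (hl : 1 ≤ l) (hβ : 1 ≤ β) (ha : 1 ≤ a0)
    (hm : m = 2 * (2 ^ (rr l β + 1) * a0)) : l ^ 2 ≤ m ∧ 2 ^ rr l β ≤ m := by
  have h1 := rr_ge4 (l := l) hβ
  have h2 : l ^ 2 ≤ l ^ 4 := Nat.pow_le_pow_right hl (by norm_num)
  have h3 : 2 ^ rr l β ≤ m := by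
    rw [hm, pow_succ]
    calc 2 ^ rr l β ≤ 2 ^ rr l β * a0 := Nat.le_mul_of_pos_right _ ha
      _ ≤ 2 * (2 ^ rr l β * 2 * a0) := by nlinarith [Nat.zero_le (2 ^ rr l β * a0)]
  exact ⟨h2.trans (h1.trans h3), h3⟩

end

end Pool.Agent.Run7.h863.QW
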