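import Pool.Agent.Run7.h630.QW.Gen
import Pool.Agent.Run7.h630.QF.Fin2
import Pool.Agent.Run7.h897.QF.R11
import Pool.Agent.Run7.h863.QW.Num
import Pool.Agent.Run7.h863.QW.Cov
import Pool.Agent.Run7.h863.QW.V5bcore

/-!
# QW (helper630), stage two, piece V6: the transfer to the infinite volume
-/

set_option autoImplicit false
set_option linter.unusedSectionVars false
set_option linter.style.haveILetI false

open MeasureTheory Matrix Filter Topology
open scoped Matrix.Norms.Frobenius ComplexConjugate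
open Pool.Agent.Run7.h897 (TW.CrS)
open Pool.Agent.Run7.h897.ST (S4 S6 mu6)
open Pool.Agent.Run7.h871.TC (wE)

namespace Pool.Agent.Run7.h863.QW

open Run7.h4.YM Run7.h630.WL Run7.h630.MQ Run7.h630.QC Run7.h630.ML Run7.h630.QF Run7.h630.QW
  Run7.h370.MQ Run7.h370.QC

noncomputable section

section loc

variable {N l : ℕ} [NeZero l]

theorem lf_cont (k : ℕ) (β : ℝ) (u : Fin 4 → Fin 4 → ℝ) (x : SiteZ l) :
    Continuous fun V : LinkZ l → SU N => localField k β V u x := by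
  have h : Continuous fun V : LinkZ l → SU N => curvU k V u x := by
    unfold curvU
    refine continuous_finsetSum _ fun a _ => continuous_finsetSum _ fun b _ => ?_
    have h1 := (curvZ_cont (N := N) k x a b).const_smul ((u a b : ℝ) : ℂ)
    exact h1
  unfold localField
  exact continuous_const.mul (Complex.continuous_re.comp
    ((h.matrix_conjTranspose.mul h).matrix_trace))

theorem lf_loc {k R : ℕ} {β : ℝ} {u : Fin 4 → Fin 4 → ℝ} {x : SiteZ l} {V V' : LinkZ l → SU N}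
    (h : ∀ e : LinkZ l, |e.2.1| ≤ R → |e.2.2.1| ≤ R → V e = V' e) (h1 : |x.1| + 1 ≤ R)
    (h2 : |x.2.1| + 1 ≤ R) : localField k β V u x = localField k β V' u x := by
  have key : ∀ (i : Fin 4) (z : SiteZ l), x.1 ≤ z.1 → z.1 ≤ x.1 + 1 → x.2.1 ≤ z.2.1 →
      z.2.1 ≤ x.2.1 + 1 → V (i, z) = V' (i, z) := by
    intro i z a1 a2 a3 a4
    have b1 := abs_le.1 (show |x.1| ≤ (R : ℤ) - 1 by linarith)
    have b2 := abs_le.1 (show |x.2.1| ≤ (R : ℤ) - 1 by linarith)
    refine h _ ?_ ?_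
    · rw [abs_le]
      constructor
      · change -(R : ℤ) ≤ z.1
        linarith [b1.1]
      · change z.1 ≤ (R : ℤ)
        linarith [b1.2]
    · rw [abs_le]
      constructor
      · change -(R : ℤ) ≤ z.2.1
        linarith [b2.1]
      · change z.2.1 ≤ (R : ℤ)
        linarith [b2.2]
  have hd : ∀ i : Fin 4, x.1 ≤ (x + dirZ i : SiteZ l).1 ∧ (x + dirZ i : SiteZ l).1 ≤ x.1 + 1 ∧
      x.2.1 ≤ (x + dirZ i : SiteZ l).2.1 ∧ (x + dirZ i : SiteZ l).2.1 ≤ x.2.1 + 1 := by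
    intro i
    fin_cases i <;> simp [dirZ]
  have hc : ∀ a b : Fin 4, curvZ k V x a b = curvZ k V' x a b := by
    intro a b
    unfold curvZ plaqZ
    rw [key a x le_rfl (by linarith) le_rfl (by linarith),
      key b x le_rfl (by linarith) le_rfl (by linarith),
      key b _ (hd a).1 (hd a).2.1 (hd a).2.2.1 (hd a).2.2.2,
      key a _ (hd b).1 (hd b).2.1 (hd b).2.2.1 (hd b).2.2.2]
  unfold localField curvU
  simp only [hc]

theorem lf_bd (k : ℕ) {β : ℝ} (hβ : 0 ≤ β) {u : Fin 4 → Fin 4 → ℝ} {B : ℝ}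
    (hu : ∀ i j, |u i j| ≤ B) (x : SiteZ l) (V : LinkZ l → SU N) :
    |localField k β V u x| ≤ 512 * B ^ 2 * N ^ 2 * β := by
  have hB : 0 ≤ B := (abs_nonneg _).trans (hu 0 0)
  have hcz : ∀ a b : Fin 4, ‖curvZ k V x a b‖ ≤ 2 * N := by
    intro a b
    unfold curvZ
    refine (norm_sub_le _ _).trans ?_
    have h1 : ‖(1 : Matrix (Fin N) (Fin N) ℂ)‖ ≤ N := norm_SU_le (1 : SU N)
    have h2 : ‖(if a = 2 ∧ b = 3 ∧ x.2.2 = 0 then Complex.exp (2 * Real.pi * Complex.I * (k / N))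
        else 1 : ℂ)‖ = 1 := by
      split_ifs
      · exact norm_om N k
      · exact norm_one
    rw [norm_smul, h2, one_mul]
    have h3 := norm_SU_le (plaqZ V x a b)
    linarith
  have hM : ‖curvU k V u x‖ ≤ 16 * (B * (2 * N)) := by
    unfold curvU
    refine norm_pair_le _ _ (by positivity) fun i j _ => ?_
    rw [norm_smul]
    refine mul_le_mul ?_ (hcz i j) (norm_nonneg _) hB
    rw [Complex.norm_real, Real.norm_eq_abs]
    exact hu i j
  unfold localField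
  rw [Matrix.trace_mul_comm, ← norm_sq_tr, abs_of_nonneg (by positivity)]
  have h4 : ‖curvU k V u x‖ ^ 2 ≤ (16 * (B * (2 * N))) ^ 2 :=
    pow_le_pow_left₀ (norm_nonneg _) hM 2
  calc β / 2 * ‖curvU k V u x‖ ^ 2 ≤ β / 2 * (16 * (B * (2 * N))) ^ 2 :=
        mul_le_mul_of_nonneg_left h4 (by positivity)
    _ = _ := by ring

theorem lf_per {m : ℕ} [NeZero N] [NeZero (2 * m)] (k : ℕ) (β : ℝ) (u : Fin 4 → Fin 4 → ℝ)
    (x : SiteZ l) {q : ZMod (2 * m) × ZMod (2 * m) → ZMod N}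
    (hq : q ((x.1 : ZMod (2 * m)), (x.2.1 : ZMod (2 * m))) = 0)
    (U : Link (2 * m) (2 * m) l → SU N) :
    localField k β (per U) u x = Xu k β u (prj m x) q U := by
  have hc : curvU k (per U) u x = Fu k q U u (prj m x) := by
    unfold curvU Fu
    refine Finset.sum_congr rfl fun a _ => Finset.sum_congr rfl fun b hb => ?_
    rw [Pool.Agent.Run7.h897.QF.curv_per k U x (Finset.mem_Ioi.1 hb) hq]
    rfl
  unfold localField Xu
  rw [hc]

end loc

/-- a comparison -/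
theorem one_cmp (hR9 : S_R9) {N k l : ℕ} [NeZero N] [NeZero l] (hN : 2 ≤ N)
    (hk : Nat.Coprime k N) [MeasurableSpace (SU N)] [BorelSpace (SU N)]
    [MeasurableSpace (S6 N)] [BorelSpace (S6 N)] (μ : Measure (SU N)) [IsProbabilityMeasure μ]
    [μ.IsHaarMeasure] {β : ℝ} {a0 : ℕ} (ha1 : 1 ≤ a0)
    {s : ℝ} (hs0 : 0 < s) (hs : s ≤ 1 / 2) (hcr : TW.CrS (mu6 μ) (wE N l k β) a0 s)
    {ν : Measure (LinkZ l → SU N)} (hν : IsLimit k μ β ν) {R r m : ℕ} [NeZero (2 * m)]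
    (hR : 2 * R + 5 ≤ 2 ^ r) (hm : m = 2 * (2 ^ (r + 1) * a0))
    (G : (LinkZ l → SU N) → ℝ) (hG : Continuous G) {κ : ℝ} (hκ : 0 < κ) (hGκ : ∀ V, |G V| ≤ κ)
    (hloc : ∀ V V' : LinkZ l → SU N, (∀ e : LinkZ l, |e.2.1| ≤ R → |e.2.2.1| ≤ R → V e = V' e) →
      G V = G V')
    (g : (ZMod (2 * m) × ZMod (2 * m) → ZMod N) → (Link (2 * m) (2 * m) l → SU N) → ℝ)
    (hg : ∀ q, Wn (2 * m) (2 * m) N R q → ∀ U, G (per U) = g q U) :
    |∫ V, G V ∂ν - Sw N (2 * m) (2 * m) R (fun q => ∫ U, g q U * Real.exp (-(β * Sq k q U))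
      ∂(Measure.pi fun _ : Link (2 * m) (2 * m) l => μ)) /
      Sw N (2 * m) (2 * m) R (fun q => ∫ U, Real.exp (-(β * Sq k q U))
      ∂(Measure.pi fun _ : Link (2 * m) (2 * m) l => μ))| ≤
      κ * (48 * (N : ℝ) ^ ((2 * R + 1) ^ 2) * s ^ (2 ^ r)) ∧
    |Sw N (2 * m) (2 * m) R (fun q => ∫ U, g q U * Real.exp (-(β * Sq k q U))
      ∂(Measure.pi fun _ : Link (2 * m) (2 * m) l => μ))| ≤ κ *
      Sw N (2 * m) (2 * m) R (fun q => ∫ U, Real.exp (-(β * Sq k q U))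
      ∂(Measure.pi fun _ : Link (2 * m) (2 * m) l => μ)) := by
  have t9 := hR9 N l k hN hk μ β a0 ha1 s hs0 hs hcr ν hν R r hR (fun V => κ⁻¹ * G V)
    (continuous_const.mul hG) (fun V => by
      rw [abs_mul, abs_of_pos (inv_pos.2 hκ), inv_mul_le_iff₀ hκ, mul_one]
      exact hGκ V)
    (fun V V' h => by rw [hloc V V' h]) m hm
  have e1 : Sw N (2 * m) (2 * m) R (fun q => ∫ U, κ⁻¹ * G (per U) * Real.exp (-(β * Sq k q U))
      ∂(Measure.pi fun _ : Link (2 * m) (2 * m) l => μ)) = κ⁻¹ *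
      Sw N (2 * m) (2 * m) R (fun q => ∫ U, g q U * Real.exp (-(β * Sq k q U))
      ∂(Measure.pi fun _ : Link (2 * m) (2 * m) l => μ)) := by
    have e2 : κ⁻¹ * Sw N (2 * m) (2 * m) R (fun q => ∫ U, g q U * Real.exp (-(β * Sq k q U))
        ∂(Measure.pi fun _ : Link (2 * m) (2 * m) l => μ)) =
        Sw N (2 * m) (2 * m) R (fun q => κ⁻¹ * ∫ U, g q U * Real.exp (-(β * Sq k q U))
        ∂(Measure.pi fun _ : Link (2 * m) (2 * m) l => μ)) := by
      unfold Sw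
      rw [Finset.mul_sum]
    rw [e2]
    refine Sw_congr fun q hq => ?_
    rw [← integral_const_mul]
    refine integral_congr_ae (Eventually.of_forall fun U => ?_)
    simp only
    rw [hg q hq U, mul_assoc]
  have e3 : ∫ V, κ⁻¹ * G V ∂ν = κ⁻¹ * ∫ V, G V ∂ν := integral_const_mul _ _
  rw [e1, e3] at t9
  have hint : ∀ q : ZMod (2 * m) × ZMod (2 * m) → ZMod N,
      Integrable (fun U : Link (2 * m) (2 * m) l → SU N => Real.exp (-(β * Sq k q U)))
        (Measure.pi fun _ : Link (2 * m) (2 * m) l => μ) := fun q =>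
    Run7.h863.MQ.intg _ (Real.continuous_exp.comp ((continuous_const.mul (cont_Sq k q)).neg))
  constructor
  · set A := Sw N (2 * m) (2 * m) R (fun q => ∫ U, g q U * Real.exp (-(β * Sq k q U))
      ∂(Measure.pi fun _ : Link (2 * m) (2 * m) l => μ)) with hA
    set Z := Sw N (2 * m) (2 * m) R (fun q => ∫ U, Real.exp (-(β * Sq k q U))
      ∂(Measure.pi fun _ : Link (2 * m) (2 * m) l => μ)) with hZ
    have e4 : ∫ V, G V ∂ν - A / Z = κ * (κ⁻¹ * ∫ V, G V ∂ν - κ⁻¹ * A / Z) := by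
      rw [mul_sub, ← mul_assoc, mul_inv_cancel₀ hκ.ne', one_mul, mul_div_assoc, ← mul_assoc,
        mul_inv_cancel₀ hκ.ne', one_mul]
    rw [e4, abs_mul, abs_of_pos hκ]
    exact mul_le_mul_of_nonneg_left t9 hκ.le
  · have e5 : κ * Sw N (2 * m) (2 * m) R (fun q => ∫ U, Real.exp (-(β * Sq k q U))
        ∂(Measure.pi fun _ : Link (2 * m) (2 * m) l => μ)) =
        Sw N (2 * m) (2 * m) R (fun q => κ * ∫ U, Real.exp (-(β * Sq k q U))
        ∂(Measure.pi fun _ : Link (2 * m) (2 * m) l => μ)) := by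
      unfold Sw
      rw [Finset.mul_sum]
    rw [e5]
    unfold Sw
    refine (Finset.abs_sum_le_sum_abs _ _).trans (Finset.sum_le_sum fun q hq => ?_)
    have hq' : Wn (2 * m) (2 * m) N R q := by
      simp only [Finset.mem_filter] at hq
      exact hq.2
    rw [← integral_const_mul, ← Real.norm_eq_abs]
    refine norm_integral_le_of_norm_le ((hint q).const_mul κ) (Eventually.of_forall fun U => ?_)
    rw [Real.norm_eq_abs, abs_mul, abs_of_pos (Real.exp_pos _), ← hg q hq' U]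
    exact mul_le_mul_of_nonneg_right (hGκ _) (Real.exp_pos _).le

theorem t_V6 : S_Q15b → S_R9 → S_V5 → S_V6 := by
  intro hQ15 hR9 hV5 N k _ hN hk _ _ μ _ _
  letI : MeasurableSpace (S6 N) := borel _
  haveI : BorelSpace (S6 N) := ⟨rfl⟩
  have hNr : (0 : ℝ) < N := by exact_mod_cast Nat.pos_of_neZero N
  obtain ⟨pQ, lQ, hQ'⟩ := hQ15 N k hN hk μ (Real.pi / N) (by positivity) (by
    rw [mul_div_assoc]
    have : 0 < Real.pi / N := by positivity
    linarith)
  obtain ⟨C5, p5, hC5, h5⟩ := hV5 N k hk μ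
  obtain ⟨p₁, hp₁⟩ := numB p5
  refine ⟨max pQ p₁, fun T => ?_⟩
  obtain ⟨l1, h1⟩ := hp₁ (C5 * (1 + (T : ℝ)) ^ 16)
  obtain ⟨l2, h2⟩ := numA N T (512 * (T : ℝ) ^ 2 * N ^ 2 + 1)
  refine ⟨max (max l1 l2) (max lQ (2 * T + 8)), fun l _ hl β hβ ν hν => ?_⟩
  have hll1 : l1 ≤ l := (le_max_left _ _).trans ((le_max_left _ _).trans hl)
  have hll2 : l2 ≤ l := (le_max_right _ _).trans ((le_max_left _ _).trans hl)
  have hllQ : lQ ≤ l := (le_max_left _ _).trans ((le_max_right _ _).trans hl)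
  have hllT : 2 * T + 8 ≤ l := (le_max_right _ _).trans ((le_max_right _ _).trans hl)
  have hl1' : 1 ≤ l := by omega
  have hlr : (1 : ℝ) ≤ l := by exact_mod_cast hl1'
  have hβ1 : 1 ≤ β := (one_le_pow₀ hlr).trans hβ
  have hβQ : (l : ℝ) ^ pQ ≤ β := (pow_le_pow_right₀ hlr (le_max_left _ _)).trans hβ
  have hβ₁ : (l : ℝ) ^ p₁ ≤ β := (pow_le_pow_right₀ hlr (le_max_right _ _)).trans hβ
  obtain ⟨a0, ha1, ha3, s, hs0, hs, -, hcr⟩ := hQ' l hllQ β hβQ
  obtain ⟨m, hm⟩ : ∃ m, m = 2 * (2 ^ (rr l β + 1) * a0) := ⟨_, rfl⟩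
  refine ⟨m, (numD hl1' hβ1 ha1 hm).1, ?_⟩
  intro _ _ u v hu hv x y hx1 hx2 hy1 hy2
  haveI := hν.prob
  obtain ⟨R, hR⟩ : ∃ R, R = T * l + 1 := ⟨_, rfl⟩
  have hw : 2 * R + 5 ≤ 2 ^ rr l β := by
    rw [hR]
    exact numC hllT hβ1
  have hm2 : 2 * R + 2 ≤ 2 * m := by
    have := (numD hl1' hβ1 ha1 hm).2
    omega
  obtain ⟨κ, hκ⟩ : ∃ κ : ℝ, κ = (512 * (T : ℝ) ^ 2 * N ^ 2 + 1) * β := ⟨_, rfl⟩
  have hκ0 : 0 < κ := by
    rw [hκ]
    positivity
  have hbd : ∀ (w : Fin 4 → Fin 4 → ℝ), (∀ i j, |w i j| ≤ T) → ∀ (z : SiteZ l)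
      (V : LinkZ l → SU N), |localField k β V w z| ≤ κ := by
    intro w hw z V
    refine (lf_bd k (by linarith) hw z V).trans ?_
    rw [hκ]
    nlinarith
  have hcast : ∀ {a : ℤ}, |a| ≤ T * l → |a| + 1 ≤ (R : ℤ) := by
    intro a ha
    rw [hR]
    push_cast
    linarith
  have hwin : ∀ z : SiteZ l, |z.1| ≤ T * l → |z.2.1| ≤ T * l →
      ∀ q : ZMod (2 * m) × ZMod (2 * m) → ZMod N, Wn (2 * m) (2 * m) N R q →
      q ((z.1 : ZMod (2 * m)), (z.2.1 : ZMod (2 * m))) = 0 := by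
    intro z hz1 hz2 q hq
    have g1 := hcast hz1
    have g2 := hcast hz2
    exact hq (z.1, z.2.1) (by
      show |z.1| ≤ (R : ℤ)
      linarith) (by
      show |z.2.1| ≤ (R : ℤ)
      linarith)
  have c1 := one_cmp hR9 hN hk μ ha1 hs0 hs hcr hν hw hm
    (fun V => localField k β V u x * localField k β V v y)
    ((lf_cont k β u x).mul (lf_cont k β v y)) (pow_pos hκ0 2) (fun V => by
      rw [abs_mul, _root_.sq]
      exact mul_le_mul (hbd u hu x V) (hbd v hv y V) (abs_nonneg _) hκ0.le)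
    (fun V V' h => by
      rw [lf_loc h (hcast hx1) (hcast hx2), lf_loc h (hcast hy1) (hcast hy2)])
    (fun q U => Xu k β u (prj m x) q U * Xu k β v (prj m y) q U)
    (fun q hq U => by
      show localField k β (per U) u x * localField k β (per U) v y = _
      rw [lf_per k β u x (hwin x hx1 hx2 q hq) U, lf_per k β v y (hwin y hy1 hy2 q hq) U])
  have c2 := one_cmp hR9 hN hk μ ha1 hs0 hs hcr hν hw hm
    (fun V => localField k β V u x) (lf_cont k β u x) hκ0 (fun V => hbd u hu x V)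
    (fun V V' h => lf_loc h (hcast hx1) (hcast hx2))
    (fun q U => Xu k β u (prj m x) q U)
    (fun q hq U => lf_per k β u x (hwin x hx1 hx2 q hq) U)
  have c3 := one_cmp hR9 hN hk μ ha1 hs0 hs hcr hν hw hm
    (fun V => localField k β V v y) (lf_cont k β v y) hκ0 (fun V => hbd v hv y V)
    (fun V V' h => lf_loc h (hcast hy1) (hcast hy2))
    (fun q U => Xu k β v (prj m y) q U)
    (fun q hq U => lf_per k β v y (hwin y hy1 hy2 q hq) U)
  have hZ : 0 < Sw N (2 * m) (2 * m) R (fun q => ∫ U, Real.exp (-(β * Sq k q U))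
      ∂(Measure.pi fun _ : Link (2 * m) (2 * m) l => μ)) :=
    Sw_pos fun q => integral_exp_pos (Run7.h863.MQ.intg _
      (Real.continuous_exp.comp ((continuous_const.mul (cont_Sq k q)).neg)))
  have c5 := h5 m l R hm2 β hβ1 u v T hu hv (prj m x) (prj m y) _ rfl
  simp only [one_mul] at c5
  rw [← Finset.sum_mul, ← mul_assoc] at c5
  have hcb : |∫ V, localField k β V v y ∂ν| ≤ κ := by
    have := norm_integral_le_of_norm_le_const (μ := ν) (f := fun V => localField k β V v y)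
      (C := κ) (Eventually.of_forall fun V => by
        rw [Real.norm_eq_abs]
        exact hbd v hv y V)
    simpa using this
  have he : 0 ≤ 48 * (N : ℝ) ^ ((2 * R + 1) ^ 2) * s ^ (2 ^ rr l β) := by positivity
  have fin := cov hZ hκ0.le he c1.1 c2.1 c3.1 c2.2 hcb c5
  refine fin.trans ?_
  have n1 := h2 l hll2 β hβ1 s hs0 hs
  rw [← hR, ← hκ] at n1
  have n2 := h1 l hll1 β hβ1 hβ₁ a0 m ha3 hm
  have n3 : C5 * vol (2 * m) (2 * m) l ^ p5 * (1 + (T : ℝ)) ^ 16 * β ^ (-(1 / 4) : ℝ) ≤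
      1 / 2 * ((l : ℝ) ^ 9)⁻¹ := by
    refine le_trans (le_of_eq ?_) n2
    unfold vol
    ring
  linarith

end

end Pool.Agent.Run7.h863.QW
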