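import Pool.Agent.Run7.h105.QC.Q2

/-!
# QW (helper630), piece W1: the phases, the core
-/

set_option autoImplicit false

open Matrix
open scoped Matrix.Norms.Frobenius ComplexConjugate

namespace Pool.Agent.Run7.h863.QW

open Run7.h4.YM Run7.h630.MQ Run7.h630.QC Run7.h370.MQ Run7.h370.QC Run7.h105.QC

variable {N n L l : ℕ}

/-- the power `N` of a unitary matrix whose smaller powers have small traces -/
def S_newt : Prop := ∀ (N : ℕ) [NeZero N], ∃ C : ℝ, 0 < C ∧ ∀ P : Matrix (Fin N) (Fin N) ℂ,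
  P.det = 1 → Pᴴ * P = 1 → ∀ e : ℝ, 0 ≤ e → (∀ j, 0 < j → j < N → ‖trace (P ^ j)‖ ≤ e) →
  ‖P ^ N - ((-1) ^ (N + 1) : ℂ) • (1 : Matrix (Fin N) (Fin N) ℂ)‖ ≤ C * e

theorem tr_small (hN : 0 < N) {P D : SU N} {z : ℂ} {r : ℝ} (hz : z ^ N = 1) (h1 : z ≠ 1)
    (h : ‖(P * D * P⁻¹).1 - z • D.1‖ ≤ r) : ‖trace D.1‖ ≤ N * (N * r) := by
  have e1 : trace ((P * D * P⁻¹).1) = trace D.1 := trace_cj P D.1
  have e2 : (1 - z) * trace D.1 = trace ((P * D * P⁻¹).1 - z • D.1) := by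
    rw [trace_sub, e1, trace_smul, smul_eq_mul]
    ring
  have h2 : ‖1 - z‖ * ‖trace D.1‖ ≤ N * r := by
    rw [← norm_mul, e2]
    exact (norm_tr_le _).trans (mul_le_mul_of_nonneg_left h (Nat.cast_nonneg _))
  have h3 := root_far hN hz h1
  calc ‖trace D.1‖ ≤ (N * ‖1 - z‖) * ‖trace D.1‖ := le_mul_of_one_le_left (norm_nonneg _) h3
    _ = N * (‖1 - z‖ * ‖trace D.1‖) := by ring
    _ ≤ N * (N * r) := mul_le_mul_of_nonneg_left h2 (Nat.cast_nonneg _)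

theorem conj_pow2 {P Q : SU N} {w : ℂ} {r : ℝ} (hw : ‖w‖ = 1)
    (h : ‖(Q * P * Q⁻¹).1 - w • P.1‖ ≤ r) (a b : ℕ) :
    ‖(Q ^ a * P ^ b * (Q ^ a)⁻¹).1 - w ^ (a * b) • (P ^ b).1‖ ≤ a * (b * r) := by
  have h1 := apx_pow hw h b
  have e1 : (Q * P * Q⁻¹) ^ b = Q * P ^ b * Q⁻¹ := conj_pow
  rw [e1] at h1
  induction a with
  | zero => simp
  | succ a ih =>
    have e2 : (Q ^ (a + 1) * P ^ b * (Q ^ (a + 1))⁻¹).1 - w ^ ((a + 1) * b) • (P ^ b).1 =
        Q.1 * ((Q ^ a * P ^ b * (Q ^ a)⁻¹).1 - w ^ (a * b) • (P ^ b).1) * (Q⁻¹).1 +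
          w ^ (a * b) • ((Q * P ^ b * Q⁻¹).1 - w ^ b • (P ^ b).1) := by
      have e3 : Q ^ (a + 1) * P ^ b * (Q ^ (a + 1))⁻¹ =
          Q * (Q ^ a * P ^ b * (Q ^ a)⁻¹) * Q⁻¹ := by
        rw [pow_succ' Q a, _root_.mul_inv_rev]
        group
      have e4 : (Q ^ (a + 1) * P ^ b * (Q ^ (a + 1))⁻¹).1 =
          Q.1 * (Q ^ a * P ^ b * (Q ^ a)⁻¹).1 * (Q⁻¹).1 := by
        rw [e3]
        rfl
      have e5 : (Q * P ^ b * Q⁻¹).1 = Q.1 * (P ^ b).1 * (Q⁻¹).1 := rfl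
      rw [e4, e5, Matrix.mul_sub, Matrix.sub_mul, Matrix.mul_smul, Matrix.smul_mul, smul_sub,
        smul_smul, ← pow_add, show (a + 1) * b = a * b + b by ring]
      abel
    rw [e2]
    refine (norm_add_le _ _).trans ?_
    rw [nru, nlu, norm_smul, norm_pow, hw, one_pow, one_mul, Nat.cast_succ, add_mul, one_mul]
    exact add_le_add ih h1

theorem comm_pow {P Q : SU N} {w : ℂ} {r : ℝ} (hw : ‖w‖ = 1)
    (h : ‖(Q * P * Q⁻¹).1 - w • P.1‖ ≤ r) (a b : ℕ) :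
    ‖(Q ^ a * P ^ b).1 - w ^ (a * b) • (P ^ b * Q ^ a).1‖ ≤ a * (b * r) := by
  have e : (Q ^ a * P ^ b).1 - w ^ (a * b) • (P ^ b * Q ^ a).1 =
      ((Q ^ a * P ^ b * (Q ^ a)⁻¹).1 - w ^ (a * b) • (P ^ b).1) * (Q ^ a).1 := by
    have e1 : (Q ^ a * P ^ b).1 = (Q ^ a * P ^ b * (Q ^ a)⁻¹).1 * (Q ^ a).1 := by
      have : Q ^ a * P ^ b = Q ^ a * P ^ b * (Q ^ a)⁻¹ * Q ^ a := by group
      calc (Q ^ a * P ^ b).1 = (Q ^ a * P ^ b * (Q ^ a)⁻¹ * Q ^ a).1 := by rw [← this]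
        _ = _ := rfl
    have e2 : (P ^ b * Q ^ a).1 = (P ^ b).1 * (Q ^ a).1 := rfl
    rw [e1, e2, Matrix.sub_mul, Matrix.smul_mul]
  rw [e, nru]
  exact conj_pow2 hw h a b

theorem four_pow {P Q : SU N} {w : ℂ} {r : ℝ} (hw : ‖w‖ = 1)
    (h : ‖(Q * P * Q⁻¹).1 - w • P.1‖ ≤ r) (a a' b b' : ℕ) :
    ‖(P ^ a * Q ^ a' * (P ^ b * Q ^ b')).1 - w ^ (a' * b) • (P ^ (a + b) * Q ^ (a' + b')).1‖ ≤
      a' * (b * r) := by
  have e : (P ^ a * Q ^ a' * (P ^ b * Q ^ b')).1 - w ^ (a' * b) •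
      (P ^ (a + b) * Q ^ (a' + b')).1 =
      (P ^ a).1 * ((Q ^ a' * P ^ b).1 - w ^ (a' * b) • (P ^ b * Q ^ a').1) * (Q ^ b').1 := by
    have e1 : (P ^ a * Q ^ a' * (P ^ b * Q ^ b')).1 =
        (P ^ a).1 * (Q ^ a' * P ^ b).1 * (Q ^ b').1 := by
      have : P ^ a * Q ^ a' * (P ^ b * Q ^ b') = P ^ a * (Q ^ a' * P ^ b) * Q ^ b' := by
        simp only [mul_assoc]
      rw [this]
      rfl
    have e2 : (P ^ (a + b) * Q ^ (a' + b')).1 =
        (P ^ a).1 * (P ^ b * Q ^ a').1 * (Q ^ b').1 := by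
      have : P ^ (a + b) * Q ^ (a' + b') = P ^ a * (P ^ b * Q ^ a') * Q ^ b' := by
        rw [pow_add, pow_add]
        simp only [mul_assoc]
      rw [this]
      rfl
    rw [e1, e2, Matrix.mul_sub, Matrix.sub_mul, Matrix.mul_smul, Matrix.smul_mul]
  rw [e, nru, nlu]
  exact comm_pow hw h a' b

/-- the phases -/
noncomputable def chi (N k : ℕ) (α : Col N) : ℂ :=
  conj (om N k) ^ ((α.1 : ℕ) * (α.2 : ℕ)) *
    ((if (α.1 : ℕ) = 0 then 1 else (-1) ^ (N + 1)) *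
      (if (α.2 : ℕ) = 0 then 1 else (-1) ^ (N + 1)))

theorem sgn_norm (a : ℕ) : ‖(if a = 0 then 1 else (-1) ^ (N + 1) : ℂ)‖ = 1 := by
  split_ifs
  · simp
  · simp

theorem chi_norm (k : ℕ) (α : Col N) : ‖chi N k α‖ = 1 := by
  unfold chi
  rw [norm_mul, norm_mul, sgn_norm, sgn_norm, norm_pow, RCLike.norm_conj, norm_om, one_pow,
    mul_one, mul_one]

theorem ngv {a : ℕ} (h : a < N) :
    (a = 0 ∧ (N - a) % N = 0) ∨ (a ≠ 0 ∧ (N - a) % N = N - a ∧ (N - a) % N ≠ 0) := by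
  rcases Nat.eq_zero_or_pos a with h0 | h0
  · left
    refine ⟨h0, ?_⟩
    rw [h0, Nat.sub_zero, Nat.mod_self]
  · right
    have h1 : (N - a) % N = N - a := Nat.mod_eq_of_lt (by omega)
    exact ⟨by omega, h1, by omega⟩

theorem pw_neg {z : ℂ} (hz : z ^ N = 1) {a b : ℕ} (ha : a ≤ N) (hb : b ≤ N) :
    z ^ ((N - a) * (N - b)) = z ^ (a * b) := by
  obtain ⟨c, hc⟩ := Nat.exists_eq_add_of_le ha
  obtain ⟨d, hd⟩ := Nat.exists_eq_add_of_le hb
  have h1 : N - a = c := by omega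
  have h2 : N - b = d := by omega
  rw [h1, h2]
  have h3 : z ^ (c * d) * z ^ (a * d) = 1 := by
    rw [← pow_add, show c * d + a * d = (a + c) * d by ring, ← hc, pow_mul, hz, one_pow]
  have h4 : z ^ (a * b) * z ^ (a * d) = 1 := by
    rw [← pow_add, show a * b + a * d = (b + d) * a by ring, ← hd, pow_mul, hz, one_pow]
  have h5 : z ^ (a * d) ≠ 0 := fun h => by
    rw [h, mul_zero] at h4
    exact zero_ne_one h4
  exact mul_right_cancel₀ h5 (h3.trans h4.symm)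

theorem chi_neg [NeZero N] (k : ℕ) (α β : Col N) (h1 : (β.1 : ℕ) = (N - α.1) % N)
    (h2 : (β.2 : ℕ) = (N - α.2) % N) : chi N k β = chi N k α := by
  have hz : conj (om N k) ^ N = 1 := by rw [← map_pow, om_pow, map_one]
  unfold chi
  rcases ngv α.1.2 with ⟨h3, h4⟩ | ⟨h3, h4, h5⟩
  · rcases ngv α.2.2 with ⟨h6, h7⟩ | ⟨h6, h7, h8⟩
    · rw [h1, h2, h4, h7, h3, h6]
    · rw [h1, h2, h4, h3, zero_mul, zero_mul, if_neg h8, if_neg h6]
  · rcases ngv α.2.2 with ⟨h6, h7⟩ | ⟨h6, h7, h8⟩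
    · rw [h1, h2, h7, h6, mul_zero, mul_zero, if_neg h5, if_neg h3]
    · rw [h1, h2, if_neg h5, if_neg h3, if_neg h8, if_neg h6, h4, h7,
        pw_neg hz α.1.2.le α.2.2.le]

/-- the bounds -/
theorem core (hnewt : S_newt) (N k : ℕ) [NeZero N] (hk : Nat.Coprime k N) :
    ∃ C : ℝ, 0 < C ∧
    ∀ (n L l : ℕ) [NeZero n] [NeZero L] [NeZero l] (q : ZMod n × ZMod L → ZMod N)
      (U : Link n L l → SU N) (α α' : Col N) (x : Site n L l),
      (((α'.1 : ℕ) = (N - α.1) % N ∧ (α'.2 : ℕ) = (N - α.2) % N) →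
        ‖trace ((Dr α U x).1 * (Dr α' U x).1) - N * chi N k α‖ ≤ C * l ^ 2 * ss k q U) ∧
      (¬((α'.1 : ℕ) = (N - α.1) % N ∧ (α'.2 : ℕ) = (N - α.2) % N) →
        ‖trace ((Dr α U x).1 * (Dr α' U x).1)‖ ≤ C * l ^ 2 * ss k q U) := by
  have hN : 0 < N := Nat.pos_of_neZero N
  have hN' : (0 : ℝ) < N := by exact_mod_cast hN
  obtain ⟨C0, hC0, hnew⟩ := hnewt N
  have hprim : IsPrimitiveRoot (om N k) N := Complex.isPrimitiveRoot_exp_of_coprime k N hN.ne' hk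
  have hcm : conj (om N k) * om N k = 1 := conj_mul_self (norm_om N k)
  have hmc : om N k * conj (om N k) = 1 := mul_conj_self (norm_om N k)
  have hr : ∀ a : ℕ, (om N k ^ a) ^ N = 1 := fun a => by
    rw [← pow_mul, mul_comm, pow_mul, om_pow, one_pow]
  have hr' : ∀ a : ℕ, (conj (om N k) ^ a) ^ N = 1 := fun a => by
    rw [← map_pow, ← map_pow, hr, map_one]
  have hne : ∀ a : ℕ, ¬ N ∣ a → om N k ^ a ≠ 1 := fun a ha h => ha (hprim.dvd_of_pow_eq_one a h)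
  have hne' : ∀ a : ℕ, ¬ N ∣ a → conj (om N k) ^ a ≠ 1 := fun a ha h => by
    refine hne a ha ?_
    have h2 := congrArg conj h
    rwa [map_pow, Complex.conj_conj, map_one] at h2
  refine ⟨N * (N * (N * (2 * N))) + N * (C0 * (N * (N * (2 * N))) + C0 * (N * (N * (2 * N)))) +
    N * (N * (2 * N + 2 * N)), by positivity, ?_⟩
  intro n L l _ _ _ q U α α' x
  have hs := ss_nonneg k q U
  set s := ss k q U with hsdef
  set r : ℝ := l * (2 * N * l * s) with hrdef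
  have hr0 : 0 ≤ r := by positivity
  set P := lp U x with hP
  set Q := lq U x with hQ
  have hD : ∀ γ : Col N, Dr γ U x = P ^ (γ.1 : ℕ) * Q ^ (γ.2 : ℕ) := fun γ => rfl
  have h2 : ∀ γ : Col N, ‖(P * Dr γ U x * P⁻¹).1 - conj (om N k) ^ (γ.2 : ℕ) • (Dr γ U x).1‖ ≤ r :=
    fun γ => around2 k q U γ x
  have h3 : ∀ γ : Col N, ‖(Q * Dr γ U x * Q⁻¹).1 - om N k ^ (γ.1 : ℕ) • (Dr γ U x).1‖ ≤ r :=
    fun γ => around3 k q U γ x
  constructor
  · rintro ⟨hb1, hb2⟩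
    -- the relation `Q P = om P Q`
    have hQP : ‖(Q * P * Q⁻¹).1 - om N k • P.1‖ ≤ r := by
      rcases Nat.lt_or_ge 1 N with h1 | h1
      · have h4 := h3 ((⟨1, h1⟩, ⟨0, hN⟩) : Col N)
        rw [hD] at h4
        simp only [pow_one, pow_zero, mul_one] at h4
        exact h4
      · have hN1 : N = 1 := le_antisymm h1 hN
        have h5 : om N k = 1 := by
          have := om_pow (N := N) k
          rwa [hN1, pow_one, ← hN1] at this
        have h6 : ∀ g : SU N, g = 1 := by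
          intro g
          subst hN1
          refine Subtype.ext ?_
          ext i j
          have hd := (Matrix.mem_specialUnitaryGroup_iff.1 g.2).2
          rw [Matrix.det_unique] at hd
          have hi : i = default := Subsingleton.elim _ _
          have hj : j = default := Subsingleton.elim _ _
          rw [hi, hj, hd]
          rfl
        rw [h6 P, h6 Q, h5, one_smul]
        simpa using hr0
    -- the powers
    have hPN : ‖(P ^ N).1 - ((-1) ^ (N + 1) : ℂ) • (1 : Mt N)‖ ≤ C0 * (N * (N * r)) := by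
      refine hnew P.1 (Matrix.mem_specialUnitaryGroup_iff.1 P.2).2 (star_mul_self P) _
        (by positivity) fun j hj0 hj => ?_
      have h4 := h3 ((⟨j, hj⟩, ⟨0, hN⟩) : Col N)
      rw [hD] at h4
      simp only [pow_zero, mul_one] at h4
      exact tr_small hN (hr j) (hne j (fun hd => absurd (Nat.le_of_dvd hj0 hd) (by omega))) h4
    have hQN : ‖(Q ^ N).1 - ((-1) ^ (N + 1) : ℂ) • (1 : Mt N)‖ ≤ C0 * (N * (N * r)) := by
      refine hnew Q.1 (Matrix.mem_specialUnitaryGroup_iff.1 Q.2).2 (star_mul_self Q) _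
        (by positivity) fun j hj0 hj => ?_
      have h4 := h2 ((⟨0, hN⟩, ⟨j, hj⟩) : Col N)
      rw [hD] at h4
      simp only [pow_zero, one_mul] at h4
      exact tr_small hN (hr' j) (hne' j (fun hd => absurd (Nat.le_of_dvd hj0 hd) (by omega))) h4
    have hpw : ∀ (R : SU N) (a b : ℕ), a < N → b = (N - a) % N →
        ‖(R ^ N).1 - ((-1) ^ (N + 1) : ℂ) • (1 : Mt N)‖ ≤ C0 * (N * (N * r)) →
        ‖(R ^ (a + b)).1 - (if a = 0 then 1 else (-1) ^ (N + 1) : ℂ) • (1 : SU N).1‖ ≤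
          C0 * (N * (N * r)) := by
      intro R a b ha hb hR
      rcases ngv ha with ⟨h4, h5⟩ | ⟨h4, h5, -⟩
      · rw [hb, h5, h4, if_pos rfl, add_zero, pow_zero, one_smul, sub_self, norm_zero]
        positivity
      · rw [hb, h5, if_neg h4, Nat.add_sub_cancel' ha.le]
        exact hR
    have h4 := apx_mul (sgn_norm (N := N) (α.1 : ℕ)) (hpw P α.1 α'.1 α.1.2 hb1 hPN)
      (hpw Q α.2 α'.2 α.2.2 hb2 hQN)
    have h5 := four_pow (norm_om N k) hQP (α.1 : ℕ) (α.2 : ℕ) (α'.1 : ℕ) (α'.2 : ℕ)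
    have hph : om N k ^ ((α.2 : ℕ) * (α'.1 : ℕ)) = conj (om N k) ^ ((α.1 : ℕ) * (α.2 : ℕ)) := by
      rcases ngv α.1.2 with ⟨h6, h7⟩ | ⟨h6, h7, -⟩
      · rw [hb1, h7, h6, mul_zero, zero_mul, pow_zero, pow_zero]
      · have h8 : om N k ^ ((α.2 : ℕ) * (α'.1 : ℕ)) * om N k ^ ((α.1 : ℕ) * (α.2 : ℕ)) = 1 := by
          rw [← pow_add, hb1, h7]
          have : (α.2 : ℕ) * (N - (α.1 : ℕ)) + (α.1 : ℕ) * (α.2 : ℕ) = N * (α.2 : ℕ) := by
            have h9 := α.1.2.le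
            obtain ⟨c, hc⟩ := Nat.exists_eq_add_of_le h9
            have : N - (α.1 : ℕ) = c := by omega
            rw [this]
            calc (α.2 : ℕ) * c + (α.1 : ℕ) * (α.2 : ℕ) = ((α.1 : ℕ) + c) * (α.2 : ℕ) := by ring
              _ = N * (α.2 : ℕ) := by rw [← hc]
          rw [this, pow_mul, om_pow, one_pow]
        have h9 : om N k ^ ((α.1 : ℕ) * (α.2 : ℕ)) * conj (om N k) ^ ((α.1 : ℕ) * (α.2 : ℕ)) = 1 := by
          rw [← mul_pow, hmc, one_pow]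
        calc om N k ^ ((α.2 : ℕ) * (α'.1 : ℕ))
            = om N k ^ ((α.2 : ℕ) * (α'.1 : ℕ)) * (om N k ^ ((α.1 : ℕ) * (α.2 : ℕ)) *
                conj (om N k) ^ ((α.1 : ℕ) * (α.2 : ℕ))) := by rw [h9, mul_one]
          _ = conj (om N k) ^ ((α.1 : ℕ) * (α.2 : ℕ)) := by rw [← mul_assoc, h8, one_mul]
    have e : trace ((Dr α U x).1 * (Dr α' U x).1) - N * chi N k α =
        trace ((P ^ (α.1 : ℕ) * Q ^ (α.2 : ℕ) * (P ^ (α'.1 : ℕ) * Q ^ (α'.2 : ℕ))).1 -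
          om N k ^ ((α.2 : ℕ) * (α'.1 : ℕ)) •
            (P ^ ((α.1 : ℕ) + α'.1) * Q ^ ((α.2 : ℕ) + α'.2)).1) +
        om N k ^ ((α.2 : ℕ) * (α'.1 : ℕ)) *
          trace ((P ^ ((α.1 : ℕ) + α'.1) * Q ^ ((α.2 : ℕ) + α'.2)).1 -
            ((if (α.1 : ℕ) = 0 then 1 else (-1) ^ (N + 1) : ℂ) *
              (if (α.2 : ℕ) = 0 then 1 else (-1) ^ (N + 1) : ℂ)) • (1 * 1 : SU N).1) := by
      have e1 : (Dr α U x).1 * (Dr α' U x).1 =
          (P ^ (α.1 : ℕ) * Q ^ (α.2 : ℕ) * (P ^ (α'.1 : ℕ) * Q ^ (α'.2 : ℕ))).1 := rfl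
      have e2 : trace ((1 * 1 : SU N).1) = (N : ℂ) := by
        rw [mul_one]
        exact (Matrix.trace_one).trans (by rw [Fintype.card_fin])
      rw [e1, trace_sub, trace_sub, trace_smul, trace_smul, e2, chi, ← hph]
      simp only [smul_eq_mul]
      ring
    rw [e]
    refine (norm_add_le _ _).trans ?_
    rw [norm_mul, norm_pow, norm_om, one_pow, one_mul]
    have h6 : ‖trace ((P ^ (α.1 : ℕ) * Q ^ (α.2 : ℕ) * (P ^ (α'.1 : ℕ) * Q ^ (α'.2 : ℕ))).1 -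
          om N k ^ ((α.2 : ℕ) * (α'.1 : ℕ)) •
            (P ^ ((α.1 : ℕ) + α'.1) * Q ^ ((α.2 : ℕ) + α'.2)).1)‖ ≤ N * (N * (N * r)) := by
      refine (norm_tr_le _).trans (mul_le_mul_of_nonneg_left (h5.trans ?_) hN'.le)
      have h7 : (((α.2 : ℕ) : ℝ)) ≤ N := by exact_mod_cast α.2.2.le
      have h8 : (((α'.1 : ℕ) : ℝ)) ≤ N := by exact_mod_cast α'.1.2.le
      have h9 : 0 ≤ ((α'.1 : ℕ) : ℝ) * r := by positivity
      calc ((α.2 : ℕ) : ℝ) * (((α'.1 : ℕ) : ℝ) * r) ≤ N * (((α'.1 : ℕ) : ℝ) * r) :=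
            mul_le_mul_of_nonneg_right h7 h9
        _ ≤ N * (N * r) := mul_le_mul_of_nonneg_left (mul_le_mul_of_nonneg_right h8 hr0) hN'.le
    have h7 := (norm_tr_le _).trans (mul_le_mul_of_nonneg_left h4 hN'.le)
    refine (add_le_add h6 h7).trans ?_
    have h8 : 0 ≤ N * (N * (2 * N + 2 * N)) * (l : ℝ) ^ 2 * s := by positivity
    calc N * (N * (N * r)) + N * (C0 * (N * (N * r)) + C0 * (N * (N * r)))
        = (N * (N * (N * (2 * N))) + N * (C0 * (N * (N * (2 * N))) + C0 * (N * (N * (2 * N))))) *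
          (l : ℝ) ^ 2 * s := by rw [hrdef]; ring
      _ ≤ (N * (N * (N * (2 * N))) + N * (C0 * (N * (N * (2 * N))) + C0 * (N * (N * (2 * N))))) *
          (l : ℝ) ^ 2 * s + N * (N * (2 * N + 2 * N)) * (l : ℝ) ^ 2 * s := le_add_of_nonneg_right h8
      _ = _ := by ring
  · intro hb
    have hfin : ∀ (z : ℂ), z ^ N = 1 → z ≠ 1 → ∀ R : SU N,
        ‖(R * (Dr α U x * Dr α' U x) * R⁻¹).1 - z • (Dr α U x * Dr α' U x).1‖ ≤ r + r →
        ‖trace ((Dr α U x).1 * (Dr α' U x).1)‖ ≤ (N * (N * (N * (2 * N))) +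
          N * (C0 * (N * (N * (2 * N))) + C0 * (N * (N * (2 * N)))) +
          N * (N * (2 * N + 2 * N))) * l ^ 2 * s := by
      intro z hz hz1 R hR
      have h4 := tr_small hN hz hz1 hR
      have h5 : ‖trace ((Dr α U x).1 * (Dr α' U x).1)‖ ≤ N * (N * (r + r)) := h4
      refine h5.trans ?_
      have h8 : 0 ≤ (N * (N * (N * (2 * N))) + N * (C0 * (N * (N * (2 * N))) +
        C0 * (N * (N * (2 * N))))) * (l : ℝ) ^ 2 * s := by positivity
      calc N * (N * (r + r)) = N * (N * (2 * N + 2 * N)) * (l : ℝ) ^ 2 * s := by rw [hrdef]; ring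
        _ ≤ (N * (N * (N * (2 * N))) + N * (C0 * (N * (N * (2 * N))) +
          C0 * (N * (N * (2 * N))))) * (l : ℝ) ^ 2 * s +
            N * (N * (2 * N + 2 * N)) * (l : ℝ) ^ 2 * s := le_add_of_nonneg_left h8
        _ = _ := by ring
    have hcj : ∀ R : SU N, R * (Dr α U x * Dr α' U x) * R⁻¹ =
        (R * Dr α U x * R⁻¹) * (R * Dr α' U x * R⁻¹) := fun R => by group
    have hdv : ∀ a b : ℕ, a < N → b < N → N ∣ a + b → b = (N - a) % N := by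
      intro a b ha hb' hd
      rcases ngv ha with ⟨h4, h5⟩ | ⟨h4, h5, -⟩
      · rw [h5]
        rw [h4, zero_add] at hd
        exact Nat.eq_zero_of_dvd_of_lt hd hb'
      · rw [h5]
        obtain ⟨c, hc⟩ := hd
        have h6 : c = 1 := by
          rcases Nat.lt_trichotomy c 1 with h7 | h7 | h7
          · have : c = 0 := by omega
            rw [this, mul_zero] at hc
            omega
          · exact h7
          · have : N * 2 ≤ N * c := Nat.mul_le_mul_left N h7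
            omega
        rw [h6, mul_one] at hc
        omega
    by_cases h1 : N ∣ (α.1 : ℕ) + α'.1
    · have h4 : ¬ N ∣ (α.2 : ℕ) + α'.2 := fun h5 =>
        hb ⟨hdv _ _ α.1.2 α'.1.2 h1, hdv _ _ α.2.2 α'.2.2 h5⟩
      refine hfin (conj (om N k) ^ ((α.2 : ℕ) + α'.2)) (hr' _) (hne' _ h4) P ?_
      rw [hcj, pow_add]
      exact apx_mul (by rw [norm_pow, RCLike.norm_conj, norm_om, one_pow]) (h2 α) (h2 α')
    · refine hfin (om N k ^ ((α.1 : ℕ) + α'.1)) (hr _) (hne _ h1) Q ?_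
      rw [hcj, pow_add]
      exact apx_mul (by rw [norm_pow, norm_om, one_pow]) (h3 α) (h3 α')

end Pool.Agent.Run7.h863.QW
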