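import Pool.Agent.Run7.h630.QW.Iface
import Pool.Agent.Run7.h863.QW.W1core
import Pool.Agent.Run7.h591.QW.Newt

/-!
# QW (helper630), piece W1: the phases
-/

set_option autoImplicit false

open Matrix
open scoped Matrix.Norms.Frobenius ComplexConjugate

namespace Pool.Agent.Run7.h863.QW

open Run7.h4.YM Run7.h630.MQ Run7.h630.QC Run7.h630.QW

theorem newt_ok : S_newt := fun N _ => Pool.Agent.Run7.h591.QW.newt N

theorem t_W1 : S_W1 := by
  intro N k _ hk
  obtain ⟨C, hC, h⟩ := core newt_ok N k hk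
  refine ⟨chi N k, chi_norm k, fun α => chi_neg k α (ng α) rfl rfl, C, 2, hC, ?_⟩
  intro n L l _ _ _ q U α α' x
  have h1 := h n L l q U α α' x
  by_cases h2 : α' = ng α
  · rw [if_pos h2]
    exact h1.1 ⟨by rw [h2]; rfl, by rw [h2]; rfl⟩
  · rw [if_neg h2, sub_zero]
    exact h1.2 fun h3 => h2 (Prod.ext (Fin.ext h3.1) (Fin.ext h3.2))

end Pool.Agent.Run7.h863.QW
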