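import Pool.Agent.Run7.h624.QW.K3c
import Pool.Agent.Run7.h630.QF.Mom

/-!
# QW (helper630), piece K4: the two-point function decays exponentially
-/

set_option autoImplicit false

open MeasureTheory Filter Topology

namespace Pool.Agent.Run7.h863.QW

open Run7.h4.YM Run7.h630.WL Run7.h630.QF Run7.h630.QW Run7.h624.QW

noncomputable section

/-- the integrand of the two-point function -/
def igd (N k : ℕ) (j : Ix N) (a b c d : Fin 4) (z : Fin 4 → ℝ) (p : ℝ) : ℂ :=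
  Complex.exp (Complex.I * ((p * z 1 + mom N k j 2 * z 2 + mom N k j 3 * z 3 : ℝ) : ℂ) -
      ((freq N k j p * z 0 : ℝ) : ℂ)) / ((4 * Real.pi * freq N k j p : ℝ) : ℂ) *
        tn (sym N k j p) (fun i => -sym N k j p i) a b c d

theorem freq_ge {N k : ℕ} (hk : Nat.Coprime k N) (j : Ix N)
    (hj : (j.1.1 : ℕ) ≠ 0 ∨ (j.1.2 : ℕ) ≠ 0) (p : ℝ) : 2 * Real.pi / N ≤ freq N k j p := by
  unfold freq
  refine Real.le_sqrt_of_sq_le ?_
  have h1 := mom_ge hk j hj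
  have h2 := sq_nonneg p
  linarith

theorem igd_shift {N k : ℕ} (j : Ix N) (a b c d : Fin 4) (t : ℝ) (z : Fin 4 → ℝ) (p : ℝ) :
    igd N k j a b c d z p = ((Real.exp (-(freq N k j p * (z 0 - t))) : ℝ) : ℂ) *
      igd N k j a b c d ![t, z 1, z 2, z 3] p := by
  unfold igd
  have e : Complex.exp (Complex.I * ((p * z 1 + mom N k j 2 * z 2 + mom N k j 3 * z 3 : ℝ) : ℂ) -
      ((freq N k j p * z 0 : ℝ) : ℂ)) = ((Real.exp (-(freq N k j p * (z 0 - t))) : ℝ) : ℂ) *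
      Complex.exp (Complex.I * ((p * z 1 + mom N k j 2 * z 2 + mom N k j 3 * z 3 : ℝ) : ℂ) -
      ((freq N k j p * t : ℝ) : ℂ)) := by
    rw [Complex.ofReal_exp, ← Complex.exp_add]
    congr 1
    push_cast
    ring
  have e2 : (![t, z 1, z 2, z 3] : Fin 4 → ℝ) 1 = z 1 := rfl
  have e3 : (![t, z 1, z 2, z 3] : Fin 4 → ℝ) 2 = z 2 := rfl
  have e4 : (![t, z 1, z 2, z 3] : Fin 4 → ℝ) 3 = z 3 := rfl
  have e5 : (![t, z 1, z 2, z 3] : Fin 4 → ℝ) 0 = t := rfl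
  rw [e2, e3, e4, e5, e]
  ring

theorem igd_le {N k : ℕ} (hk : Nat.Coprime k N) (j : Ix N)
    (hj : (j.1.1 : ℕ) ≠ 0 ∨ (j.1.2 : ℕ) ≠ 0) (a b c d : Fin 4) {δ : ℝ} (hδ : 0 < δ)
    {z : Fin 4 → ℝ} (hz : δ ≤ z 0) (p : ℝ) : ‖igd N k j a b c d z p‖ ≤
      Real.exp (-(2 * Real.pi / N * (z 0 - δ / 2))) * ((2 / (δ / 2) *
        (Real.exp (-(δ / 2 / 4 * |mom N k j 2|)) * Real.exp (-(δ / 2 / 4 * |mom N k j 3|)))) *
          Real.exp (-(δ / 2 / 4 * |p|))) := by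
  rw [igd_shift j a b c d (δ / 2) z p, norm_mul, Complex.norm_real, Real.norm_eq_abs,
    abs_of_pos (Real.exp_pos _)]
  have h1 : ‖igd N k j a b c d ![δ / 2, z 1, z 2, z 3] p‖ ≤ (2 / (δ / 2) *
        (Real.exp (-(δ / 2 / 4 * |mom N k j 2|)) * Real.exp (-(δ / 2 / 4 * |mom N k j 3|)))) *
          Real.exp (-(δ / 2 / 4 * |p|)) :=
    integrand_le (k := k) j a b c d (δ := δ / 2) (by positivity)
      (z := ![δ / 2, z 1, z 2, z 3]) (le_refl (δ / 2)) p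
  have h2 := freq_ge hk j hj p
  refine mul_le_mul (Real.exp_le_exp.2 ?_) h1 (norm_nonneg _) (Real.exp_pos _).le
  have h3 : 0 ≤ z 0 - δ / 2 := by linarith
  have h4 := mul_le_mul_of_nonneg_right h2 h3
  linarith

/-- **K4** -/
theorem K4_core (N k : ℕ) (hk : Nat.Coprime k N) (α : Fin N × Fin N)
    (hα : (α.1 : ℕ) ≠ 0 ∨ (α.2 : ℕ) ≠ 0) (a b c d : Fin 4) (δ : ℝ) (hδ : 0 < δ) :
    ∃ B : ℝ, ∀ z : Fin 4 → ℝ, δ ≤ z 0 →
      ‖twoPoint N k α a b c d z‖ ≤ B * Real.exp (-(2 * Real.pi / N * z 0)) := by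
  have hpi := Real.pi_gt_three
  obtain ⟨δ', hδ'⟩ : ∃ δ' : ℝ, δ' = δ / 2 := ⟨_, rfl⟩
  have hδ0 : 0 < δ' := by
    rw [hδ']
    positivity
  set u2 : ℝ := k * ((α.2 : ℕ) : ℝ) / N with hu2
  set u3 : ℝ := -(k * ((α.1 : ℕ) : ℝ) / N) with hu3
  have hc : 0 < δ' / 4 * (2 * Real.pi) := by positivity
  have s2 := summable_exp_abs hc u2
  have s3 := summable_exp_abs hc u3
  set I0 : ℝ := ∫ p : ℝ, Real.exp (-(δ' / 4 * |p|)) with hI0
  have hs : Summable (fun n : ℤ × ℤ => (2 / δ' * (Real.exp (-(δ' / 4 * |mom N k (α, n) 2|)) *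
      Real.exp (-(δ' / 4 * |mom N k (α, n) 3|)))) * I0) := by
    have h1 : Summable (fun n : ℤ × ℤ => Real.exp (-(δ' / 4 * (2 * Real.pi) * |(n.1 : ℝ) - u2|)) *
        Real.exp (-(δ' / 4 * (2 * Real.pi) * |(n.2 : ℝ) - u3|))) :=
      s2.mul_of_nonneg s3 (fun _ => (Real.exp_pos _).le) (fun _ => (Real.exp_pos _).le)
    refine ((h1.mul_left (2 / δ')).mul_right I0).congr fun n => ?_
    have h2 : |mom N k (α, n) 2| = 2 * Real.pi * |(n.1 : ℝ) - u2| := by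
      show |2 * Real.pi * ((n.1 : ℝ) - k * ((α.2 : ℕ) : ℝ) / N)| = _
      rw [abs_mul, abs_of_pos (by positivity : 0 < 2 * Real.pi)]
    have h3 : |mom N k (α, n) 3| = 2 * Real.pi * |(n.2 : ℝ) - u3| := by
      show |2 * Real.pi * ((n.2 : ℝ) + k * ((α.1 : ℕ) : ℝ) / N)| = _
      rw [abs_mul, abs_of_pos (by positivity : 0 < 2 * Real.pi), hu3, sub_neg_eq_add]
    rw [h2, h3]
    simp only [mul_assoc]
  obtain ⟨S, hS⟩ := hs
  refine ⟨S * Real.exp (2 * Real.pi / N * δ'), fun z hz => ?_⟩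
  have h5 : ‖twoPoint N k α a b c d z‖ ≤
      Real.exp (-(2 * Real.pi / N * (z 0 - δ'))) * S := by
    refine tsum_of_norm_bounded (hS.mul_left _) fun n => ?_
    rw [hI0, ← mul_assoc, ← integral_const_mul]
    refine norm_integral_le_of_norm_le ((int_exp_abs (by positivity)).const_mul _)
      (Eventually.of_forall fun p => ?_)
    have h6 := igd_le hk (α, n) hα a b c d hδ hz p
    rw [← hδ', ← mul_assoc] at h6
    exact h6
  refine h5.trans (le_of_eq ?_)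
  rw [mul_assoc, ← Real.exp_add, mul_comm]
  congr 2
  ring

theorem t_K4 (N k : ℕ) [NeZero N] (hk : Nat.Coprime k N) (α : Fin N × Fin N)
    (hα : α ≠ (0, 0)) (a b c d : Fin 4) (δ : ℝ) (hδ : 0 < δ) :
    ∃ B : ℝ, ∀ z : Fin 4 → ℝ, δ ≤ z 0 →
      ‖twoPoint N k α a b c d z‖ ≤ B * Real.exp (-(2 * Real.pi / N * z 0)) := by
  refine K4_core N k hk α ?_ a b c d δ hδ
  by_contra h
  rw [not_or, not_not, not_not] at h
  refine hα (Prod.ext (Fin.ext ?_) (Fin.ext ?_))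
  · rw [h.1]
    simp
  · rw [h.2]
    simp

end

end Pool.Agent.Run7.h863.QW
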