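import Pool.Agent.Run7.h624.QW.K3c
import Pool.Agent.Run7.h630.QF.Mom
import Pool.Agent.Run7.h630.QW.Defs4

/-!
# QW (helper630), piece K5: the lower bound of the two-point function of the limit
-/

set_option autoImplicit false

open MeasureTheory Filter Topology

namespace Pool.Agent.Run7.h863.QW.K5

open Run7.h4.YM Run7.h630.WL Run7.h630.QF Run7.h630.QW Run7.h624.QW

noncomputable section

/-- the two-form `dx_2 dx_3` -/
def u0 : Fin 4 → Fin 4 → ℝ := fun a b => if a = 2 ∧ b = 3 then 1 else 0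

theorem twoPointU_u0 (N k : ℕ) (α : Fin N × Fin N) (z : Fin 4 → ℝ) :
    twoPointU N k α u0 u0 z = twoPoint N k α 2 3 2 3 z := by
  have hz : ∀ a b c d : Fin 4, ¬ (a = 2 ∧ b = 3 ∧ c = 2 ∧ d = 3) →
      ((u0 a b * u0 c d : ℝ) : ℂ) * twoPoint N k α a b c d z = 0 := by
    intro a b c d h
    have h1 : u0 a b * u0 c d = 0 := by
      unfold u0
      by_cases h2 : a = 2 ∧ b = 3
      · have h3 : ¬ (c = 2 ∧ d = 3) := fun h3 => h ⟨h2.1, h2.2, h3.1, h3.2⟩
        rw [if_neg h3, mul_zero]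
      · rw [if_neg h2, zero_mul]
    rw [h1]
    simp
  have h1 : ((u0 2 3 * u0 2 3 : ℝ) : ℂ) * twoPoint N k α 2 3 2 3 z =
      twoPoint N k α 2 3 2 3 z := by
    have : u0 2 3 * u0 2 3 = 1 := by simp [u0]
    rw [this]
    simp
  unfold twoPointU
  rw [Finset.sum_eq_single (2 : Fin 4)]
  · rw [Finset.sum_eq_single (3 : Fin 4)]
    · rw [Finset.sum_eq_single (2 : Fin 4)]
      · rw [Finset.sum_eq_single (3 : Fin 4)]
        · exact h1
        · intro d _ hd
          exact hz _ _ _ _ fun h => hd h.2.2.2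
        · intro h
          exact absurd (by decide) h
      · intro c _ hc
        exact Finset.sum_eq_zero fun d _ => hz _ _ _ _ fun h => hc h.2.2.1
      · intro h
        exact absurd (Finset.mem_univ _) h
    · intro b _ hb
      exact Finset.sum_eq_zero fun c _ => Finset.sum_eq_zero fun d _ =>
        hz _ _ _ _ fun h => hb h.2.1
    · intro h
      exact absurd (by decide) h
  · intro a _ ha
    exact Finset.sum_eq_zero fun b _ => Finset.sum_eq_zero fun c _ =>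
      Finset.sum_eq_zero fun d _ => hz _ _ _ _ fun h => ha h.1
  · intro h
    exact absurd (Finset.mem_univ _) h

/-- the integrand, a real function -/
def Rf (N k : ℕ) (j : Ix N) (t p : ℝ) : ℝ :=
  Real.exp (-(freq N k j p * t)) / (4 * Real.pi * freq N k j p) *
    (mom N k j 2 ^ 2 + mom N k j 3 ^ 2)

theorem Rf_nonneg {N k : ℕ} (j : Ix N) (t p : ℝ) : 0 ≤ Rf N k j t p := by
  unfold Rf
  have h1 := freq_nonneg (k := k) j p
  have h2 := Real.pi_pos
  positivity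

theorem igd_eq {N k : ℕ} (j : Ix N) (t p : ℝ) :
    Complex.exp (Complex.I * ((p * (![t, 0, 0, 0] : Fin 4 → ℝ) 1 +
      mom N k j 2 * (![t, 0, 0, 0] : Fin 4 → ℝ) 2 +
      mom N k j 3 * (![t, 0, 0, 0] : Fin 4 → ℝ) 3 : ℝ) : ℂ) -
      ((freq N k j p * (![t, 0, 0, 0] : Fin 4 → ℝ) 0 : ℝ) : ℂ)) /
        ((4 * Real.pi * freq N k j p : ℝ) : ℂ) *
        tn (sym N k j p) (fun i => -sym N k j p i) 2 3 2 3 = ((Rf N k j t p : ℝ) : ℂ) := by
  have e0 : (![t, 0, 0, 0] : Fin 4 → ℝ) 0 = t := rfl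
  have e1 : (![t, 0, 0, 0] : Fin 4 → ℝ) 1 = 0 := rfl
  have e2 : (![t, 0, 0, 0] : Fin 4 → ℝ) 2 = 0 := rfl
  have e3 : (![t, 0, 0, 0] : Fin 4 → ℝ) 3 = 0 := rfl
  have s2 : sym N k j p 2 = Complex.I * mom N k j 2 := rfl
  have s3 : sym N k j p 3 = Complex.I * mom N k j 3 := rfl
  have h1 : tn (sym N k j p) (fun i => -sym N k j p i) 2 3 2 3 =
      ((mom N k j 2 ^ 2 + mom N k j 3 ^ 2 : ℝ) : ℂ) := by
    unfold tn
    rw [if_pos rfl, if_neg (by decide), if_neg (by decide), if_pos rfl]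
    simp only [s2, s3]
    push_cast
    have hI : Complex.I * Complex.I = -1 := Complex.I_mul_I
    linear_combination (-(mom N k j 2 : ℂ) ^ 2 - (mom N k j 3 : ℂ) ^ 2) * hI
  rw [h1, e0, e1, e2, e3, Rf, Complex.ofReal_mul (Real.exp (-(freq N k j p * t)) /
    (4 * Real.pi * freq N k j p)) (mom N k j 2 ^ 2 + mom N k j 3 ^ 2), Complex.ofReal_div,
    Complex.ofReal_exp]
  congr 3
  push_cast
  ring

theorem Rf_meas {N k : ℕ} (j : Ix N) (t : ℝ) : Measurable (fun p => Rf N k j t p) := by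
  have h1 : Measurable (fun p => freq N k j p) := by
    unfold freq
    fun_prop
  unfold Rf
  exact (((h1.mul_const t).neg.exp).div (h1.const_mul _)).mul_const _

theorem Rf_le {N k : ℕ} (j : Ix N) {t : ℝ} (ht : 0 < t) (p : ℝ) : Rf N k j t p ≤
      (2 / t * (Real.exp (-(t / 4 * |mom N k j 2|)) * Real.exp (-(t / 4 * |mom N k j 3|)))) *
        Real.exp (-(t / 4 * |p|)) := by
  have h1 := integrand_le (k := k) j 2 3 2 3 ht (z := ![t, 0, 0, 0]) (le_refl t) p
  rw [igd_eq, Complex.norm_real, Real.norm_eq_abs, abs_of_nonneg (Rf_nonneg j t p)] at h1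
  exact h1

theorem Rf_int {N k : ℕ} (j : Ix N) {t : ℝ} (ht : 0 < t) : Integrable (fun p => Rf N k j t p) := by
  refine ((int_exp_abs (c := t / 4) (by positivity)).const_mul
    (2 / t * (Real.exp (-(t / 4 * |mom N k j 2|)) * Real.exp (-(t / 4 * |mom N k j 3|))))).mono'
    (Rf_meas j t).aestronglyMeasurable (Eventually.of_forall fun p => ?_)
  rw [Real.norm_eq_abs, abs_of_nonneg (Rf_nonneg j t p)]
  exact Rf_le j ht p

theorem summ {N k : ℕ} (α : Fin N × Fin N) {t : ℝ} (ht : 0 < t) :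
    Summable (fun n : ℤ × ℤ => ∫ p : ℝ, Rf N k (α, n) t p) := by
  have hpi := Real.pi_pos
  set u2 : ℝ := k * ((α.2 : ℕ) : ℝ) / N with hu2
  set u3 : ℝ := -(k * ((α.1 : ℕ) : ℝ) / N) with hu3
  have hc : 0 < t / 4 * (2 * Real.pi) := by positivity
  have s2 := summable_exp_abs hc u2
  have s3 := summable_exp_abs hc u3
  have hs : Summable (fun n : ℤ × ℤ => (2 / t * (Real.exp (-(t / 4 * |mom N k (α, n) 2|)) *
      Real.exp (-(t / 4 * |mom N k (α, n) 3|)))) * ∫ p : ℝ, Real.exp (-(t / 4 * |p|))) := by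
    have h1 : Summable (fun n : ℤ × ℤ => Real.exp (-(t / 4 * (2 * Real.pi) * |(n.1 : ℝ) - u2|)) *
        Real.exp (-(t / 4 * (2 * Real.pi) * |(n.2 : ℝ) - u3|))) :=
      s2.mul_of_nonneg s3 (fun _ => (Real.exp_pos _).le) (fun _ => (Real.exp_pos _).le)
    refine ((h1.mul_left (2 / t)).mul_right (∫ p : ℝ, Real.exp (-(t / 4 * |p|)))).congr
      fun n => ?_
    have h2 : |mom N k (α, n) 2| = 2 * Real.pi * |(n.1 : ℝ) - u2| := by
      show |2 * Real.pi * ((n.1 : ℝ) - k * ((α.2 : ℕ) : ℝ) / N)| = _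
      rw [abs_mul, abs_of_pos (by positivity : 0 < 2 * Real.pi)]
    have h3 : |mom N k (α, n) 3| = 2 * Real.pi * |(n.2 : ℝ) - u3| := by
      show |2 * Real.pi * ((n.2 : ℝ) + k * ((α.1 : ℕ) : ℝ) / N)| = _
      rw [abs_mul, abs_of_pos (by positivity : 0 < 2 * Real.pi), hu3, sub_neg_eq_add]
    rw [h2, h3]
    simp only [mul_assoc]
  refine Summable.of_nonneg_of_le (fun n => integral_nonneg fun p => Rf_nonneg _ _ _)
    (fun n => ?_) hs
  rw [← integral_const_mul]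
  exact integral_mono (Rf_int (α, n) ht) ((int_exp_abs (by positivity)).const_mul _)
    fun p => Rf_le (α, n) ht p

theorem twoPoint_real {N k : ℕ} (α : Fin N × Fin N) (t : ℝ) :
    twoPoint N k α 2 3 2 3 ![t, 0, 0, 0] =
      ((∑' n : ℤ × ℤ, ∫ p : ℝ, Rf N k (α, n) t p : ℝ) : ℂ) := by
  unfold twoPoint
  rw [Complex.ofReal_tsum]
  refine tsum_congr fun n => ?_
  rw [← integral_complex_ofReal]
  refine integral_congr_ae (Eventually.of_forall fun p => ?_)
  exact igd_eq (α, n) t p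

/-- the lower bound by one mode -/
theorem lower {N k : ℕ} (α : Fin N × Fin N) (n : ℤ × ℤ) {m η : ℝ} (hm : 0 < m) (hη : 0 < η)
    (h2 : mom N k (α, n) 2 = 0) (h3 : mom N k (α, n) 3 = m) {t : ℝ} (ht : 0 < t) :
    2 * η * (Real.exp (-((m + η) * t)) / (4 * Real.pi * (m + η)) * m ^ 2) ≤
      ‖twoPoint N k α 2 3 2 3 ![t, 0, 0, 0]‖ := by
  have hpi := Real.pi_pos
  rw [twoPoint_real, Complex.norm_real, Real.norm_eq_abs]
  refine le_trans ?_ (le_abs_self _)
  refine le_trans ?_ ((summ (k := k) α ht).le_tsum n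
    fun _ _ => integral_nonneg fun p => Rf_nonneg _ _ _)
  have h4 : ∫ p in Set.Icc (-η) η, Rf N k (α, n) t p ≤ ∫ p, Rf N k (α, n) t p :=
    setIntegral_le_integral (Rf_int (α, n) ht) (Eventually.of_forall fun p => Rf_nonneg _ _ _)
  refine le_trans ?_ h4
  have h5 : ∫ _ in Set.Icc (-η) η, (Real.exp (-((m + η) * t)) / (4 * Real.pi * (m + η)) * m ^ 2) ≤
      ∫ p in Set.Icc (-η) η, Rf N k (α, n) t p := by
    refine setIntegral_mono_on ?_ (Rf_int (α, n) ht).integrableOn measurableSet_Icc ?_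
    · exact integrableOn_const (by simp)
    · intro p hp
      have h6 : |p| ≤ η := abs_le.2 hp
      have h7 : freq N k (α, n) p ≤ m + η := by
        unfold freq
        rw [h2, h3]
        refine Real.sqrt_le_iff.2 ⟨by positivity, ?_⟩
        have h8 : p ^ 2 ≤ η ^ 2 := by
          rw [← sq_abs]
          exact pow_le_pow_left₀ (abs_nonneg p) h6 2
        nlinarith [mul_pos hm hη]
      have h9 : m ≤ freq N k (α, n) p := by
        have := (abs_le_freq (k := k) (α, n) p).2.2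
        rw [h3, abs_of_pos hm] at this
        exact this
      have h10 : 0 < freq N k (α, n) p := lt_of_lt_of_le hm h9
      unfold Rf
      rw [h2, h3]
      have h11 : Real.exp (-((m + η) * t)) ≤ Real.exp (-(freq N k (α, n) p * t)) :=
        Real.exp_le_exp.2 (neg_le_neg (mul_le_mul_of_nonneg_right h7 ht.le))
      have h12 : Real.exp (-((m + η) * t)) / (4 * Real.pi * (m + η)) ≤
          Real.exp (-(freq N k (α, n) p * t)) / (4 * Real.pi * freq N k (α, n) p) :=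
        div_le_div₀ (Real.exp_pos _).le h11 (by positivity)
          (mul_le_mul_of_nonneg_left h7 (by positivity))
      have h13 : (0 : ℝ) ^ 2 + m ^ 2 = m ^ 2 := by ring
      rw [h13]
      exact mul_le_mul_of_nonneg_right h12 (sq_nonneg m)
  refine le_trans (le_of_eq ?_) h5
  rw [setIntegral_const, Real.volume_real_Icc_of_le (by linarith), smul_eq_mul]
  ring

/-- the colour and the mode with the smallest momentum -/
theorem mode (N k : ℕ) (hN : 2 ≤ N) (hk : Nat.Coprime k N) : ∃ α : Fin N × Fin N, ∃ n : ℤ × ℤ,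
    (α.1 : ℕ) ≠ 0 ∧ mom N k (α, n) 2 = 0 ∧ mom N k (α, n) 3 = 2 * Real.pi / N := by
  obtain ⟨c, hc1, hc2⟩ := Nat.exists_mul_mod_eq_one_of_coprime hk (by omega)
  have hN0 : (N : ℝ) ≠ 0 := by
    have : N ≠ 0 := by omega
    exact_mod_cast this
  obtain ⟨q, hq⟩ : ∃ q : ℕ, k * c = N * q + 1 := by
    have := Nat.div_add_mod (k * c) N
    rw [hc2] at this
    exact ⟨_, this.symm⟩
  refine ⟨(⟨c, hc1⟩, ⟨0, by omega⟩), (0, -(q : ℤ)), ?_, ?_, ?_⟩
  · intro h
    have h' : c = 0 := h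
    rw [h', mul_zero, Nat.zero_mod] at hc2
    exact absurd hc2 (by norm_num)
  · show 2 * Real.pi * (((0 : ℤ) : ℝ) - k * (((0 : ℕ)) : ℝ) / N) = 0
    simp
  · show 2 * Real.pi * (((-(q : ℤ) : ℤ) : ℝ) + k * ((c : ℕ) : ℝ) / N) = _
    have h1 : ((k : ℝ) * c) = N * (q : ℝ) + 1 := by exact_mod_cast hq
    rw [h1]
    push_cast
    field_simp
    ring

/-- **K5** -/
theorem K5_core (N k : ℕ) (hN : 2 ≤ N) (hk : Nat.Coprime k N) (ε : ℝ) (hε : 0 < ε) :
    ∃ c : ℝ, 0 < c ∧ ∀ t : ℝ, 0 < t → c * Real.exp (-((4 * Real.pi / N + ε) * t)) ≤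
      1 / 2 * ∑ α ∈ (Finset.univ : Finset (Fin N × Fin N)).filter
        (fun α => (α.1 : ℕ) ≠ 0 ∨ (α.2 : ℕ) ≠ 0), ‖twoPointU N k α u0 u0 ![t, 0, 0, 0]‖ ^ 2 := by
  have hpi := Real.pi_pos
  have hNr : (0 : ℝ) < N := by
    have : 0 < N := by omega
    exact_mod_cast this
  obtain ⟨α, n, h1, h2, h3⟩ := mode N k hN hk
  set m : ℝ := 2 * Real.pi / N with hm
  have hm0 : 0 < m := by positivity
  set C : ℝ := 2 * (ε / 2) * (1 / (4 * Real.pi * (m + ε / 2)) * m ^ 2) with hC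
  have hC0 : 0 < C := by positivity
  refine ⟨1 / 2 * C ^ 2, by positivity, fun t ht => ?_⟩
  have h4 := lower (k := k) α n hm0 (half_pos hε) h2 h3 ht
  have h5 : C * Real.exp (-((m + ε / 2) * t)) ≤ ‖twoPoint N k α 2 3 2 3 ![t, 0, 0, 0]‖ := by
    refine le_trans (le_of_eq ?_) h4
    rw [hC]
    ring
  have h6 : (C * Real.exp (-((m + ε / 2) * t))) ^ 2 ≤
      ‖twoPoint N k α 2 3 2 3 ![t, 0, 0, 0]‖ ^ 2 :=
    pow_le_pow_left₀ (by positivity) h5 2
  have h7 : (C * Real.exp (-((m + ε / 2) * t))) ^ 2 =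
      C ^ 2 * Real.exp (-((4 * Real.pi / N + ε) * t)) := by
    rw [mul_pow, ← Real.exp_nat_mul]
    congr 2
    rw [hm]
    push_cast
    ring
  rw [h7] at h6
  have h8 : ‖twoPointU N k α u0 u0 ![t, 0, 0, 0]‖ ^ 2 ≤
      ∑ α ∈ (Finset.univ : Finset (Fin N × Fin N)).filter
        (fun α => (α.1 : ℕ) ≠ 0 ∨ (α.2 : ℕ) ≠ 0), ‖twoPointU N k α u0 u0 ![t, 0, 0, 0]‖ ^ 2 :=
    Finset.single_le_sum (f := fun α => ‖twoPointU N k α u0 u0 ![t, 0, 0, 0]‖ ^ 2)
      (fun _ _ => sq_nonneg _) (Finset.mem_filter.2 ⟨Finset.mem_univ _, Or.inl h1⟩)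
  rw [twoPointU_u0] at h8
  rw [mul_assoc]
  exact mul_le_mul_of_nonneg_left (h6.trans h8) (by norm_num)

/-- **K5**, in terms of `wickSq` -/
theorem K5_wick (N k : ℕ) (hN : 2 ≤ N) (hk : Nat.Coprime k N) :
    ∃ u : Fin 4 → Fin 4 → ℝ, ∀ ε : ℝ, 0 < ε → ∃ c : ℝ, 0 < c ∧ ∀ t : ℝ, 0 < t →
      c * Real.exp (-((4 * Real.pi / N + ε) * t)) ≤ wickSq N k u u ![t, 0, 0, 0] :=
  ⟨u0, fun ε hε => K5_core N k hN hk ε hε⟩

end

end Pool.Agent.Run7.h863.QW.K5
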